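import Mathlib

/-!
# MP_c0ce05_co, Q2: counting in a family of sets (sections 3 and 4 of proofs row 518)

`cntS C S` = number of members of `C` which contain the set `S`. For the uniform law on `C`,
`P(S) = cntS C S / |C|`.
-/

set_option autoImplicit false

namespace C0q2

open scoped Classical

variable {N : ℕ}

/-- the members of `C` which contain `S` -/
noncomputable def pinS (C : Finset (Finset (Fin N))) (S : Finset (Fin N)) : Finset (Finset (Fin N)) :=
  C.filter (fun A => S ⊆ A)

/-- the number of members of `C` which contain `S` -/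
noncomputable def cntS (C : Finset (Finset (Fin N))) (S : Finset (Fin N)) : ℕ := (pinS C S).card

theorem mem_pinS {C : Finset (Finset (Fin N))} {S A : Finset (Fin N)} : A ∈ pinS C S ↔ A ∈ C ∧ S ⊆ A := by
  unfold pinS
  rw [Finset.mem_filter]

theorem pinS_subset (C : Finset (Finset (Fin N))) (S : Finset (Fin N)) : pinS C S ⊆ C :=
  Finset.filter_subset _ _

theorem pinS_pinS (C : Finset (Finset (Fin N))) (S T : Finset (Fin N)) :
    pinS (pinS C S) T = pinS C (S ∪ T) := by
  ext A
  rw [mem_pinS, mem_pinS, mem_pinS, Finset.union_subset_iff, and_assoc]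

theorem cntS_anti (C : Finset (Finset (Fin N))) {S T : Finset (Fin N)} (h : S ⊆ T) : cntS C T ≤ cntS C S := by
  unfold cntS
  refine Finset.card_le_card fun A hA => ?_
  rw [mem_pinS] at hA ⊢
  exact ⟨hA.1, h.trans hA.2⟩

theorem cntS_mono {C C' : Finset (Finset (Fin N))} (h : C ⊆ C') (S : Finset (Fin N)) :
    cntS C S ≤ cntS C' S := by
  unfold cntS
  refine Finset.card_le_card fun A hA => ?_
  rw [mem_pinS] at hA ⊢
  exact ⟨h hA.1, hA.2⟩

theorem cntS_le (C : Finset (Finset (Fin N))) (S : Finset (Fin N)) : cntS C S ≤ C.card :=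
  Finset.card_le_card (pinS_subset C S)

theorem cntS_empty (C : Finset (Finset (Fin N))) : cntS C ∅ = C.card := by
  unfold cntS pinS
  rw [Finset.filter_true_of_mem (fun A _ => Finset.empty_subset A)]

theorem cntS_of_forall {C : Finset (Finset (Fin N))} {S : Finset (Fin N)} (h : ∀ A ∈ C, S ⊆ A) :
    cntS C S = C.card := by
  unfold cntS pinS
  rw [Finset.filter_true_of_mem h]

/-- Lemma P0, counting form: if every set of size `s` is contained in at most `K` members then
at most `|V'| ^ s * K` members meet `V'` in at least `s` elements. -/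
theorem card_meet_le {C : Finset (Finset (Fin N))} {V' : Finset (Fin N)} {s : ℕ} {K : ℝ}
    (hF : ∀ S : Finset (Fin N), S.card = s → S ⊆ V' → (cntS C S : ℝ) ≤ K) (hK : 0 ≤ K) :
    ((C.filter (fun A => s ≤ (A ∩ V').card)).card : ℝ) ≤ (V'.card : ℝ) ^ s * K := by
  have h1 : (C.filter (fun A => s ≤ (A ∩ V').card)) ⊆
      (Finset.powersetCard s V').biUnion (fun S => pinS C S) := by
    intro A hA
    rw [Finset.mem_filter] at hA
    obtain ⟨S, hS, hSc⟩ := Finset.exists_subset_card_eq hA.2
    rw [Finset.mem_biUnion]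
    refine ⟨S, Finset.mem_powersetCard.2 ⟨hS.trans Finset.inter_subset_right, hSc⟩, ?_⟩
    rw [mem_pinS]
    exact ⟨hA.1, hS.trans Finset.inter_subset_left⟩
  have h2 : ((C.filter (fun A => s ≤ (A ∩ V').card)).card : ℝ) ≤
      ∑ S ∈ Finset.powersetCard s V', (cntS C S : ℝ) := by
    have h3 := (Finset.card_le_card h1).trans Finset.card_biUnion_le
    exact_mod_cast h3
  refine h2.trans ?_
  have h4 : ∑ S ∈ Finset.powersetCard s V', (cntS C S : ℝ) ≤
      ∑ S ∈ Finset.powersetCard s V', K := by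
    refine Finset.sum_le_sum fun S hS => ?_
    rw [Finset.mem_powersetCard] at hS
    exact hF S hS.2 hS.1
  refine h4.trans ?_
  rw [Finset.sum_const, nsmul_eq_mul, Finset.card_powersetCard]
  refine mul_le_mul_of_nonneg_right ?_ hK
  exact_mod_cast Nat.choose_le_pow V'.card s

/-- Lemma P0, expectation form. -/
theorem sum_meet_le {C : Finset (Finset (Fin N))} {V' : Finset (Fin N)} {s q : ℕ} {K : ℝ}
    (hq : ∀ A ∈ C, A.card ≤ q)
    (hF : ∀ S : Finset (Fin N), S.card = s → S ⊆ V' → (cntS C S : ℝ) ≤ K) (hK : 0 ≤ K) :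
    ∑ A ∈ C, ((A ∩ V').card : ℝ) ≤ s * C.card + q * ((V'.card : ℝ) ^ s * K) := by
  have h1 := card_meet_le hF hK
  have h2 : ∀ A ∈ C, ((A ∩ V').card : ℝ) ≤ s + (if s ≤ (A ∩ V').card then (q : ℝ) else 0) := by
    intro A hA
    split_ifs with h
    · have h3 : ((A ∩ V').card : ℝ) ≤ q := by
        exact_mod_cast (Finset.card_le_card Finset.inter_subset_left).trans (hq A hA)
      have h4 : (0 : ℝ) ≤ s := Nat.cast_nonneg s
      linarith
    · rw [add_zero]
      push Not at h
      exact_mod_cast h.le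
  refine (Finset.sum_le_sum h2).trans ?_
  rw [Finset.sum_add_distrib, Finset.sum_const, nsmul_eq_mul, mul_comm (C.card : ℝ)]
  refine add_le_add_right ?_ _
  rw [← Finset.sum_filter, Finset.sum_const, nsmul_eq_mul, mul_comm]
  exact mul_le_mul_of_nonneg_left h1 (Nat.cast_nonneg q)

/-- Double counting: `∑_x P(x) ≤ q`. -/
theorem sum_cnt_le {C : Finset (Finset (Fin N))} {q : ℕ} (hq : ∀ A ∈ C, A.card ≤ q) :
    ∑ x : Fin N, (cntS C {x} : ℝ) ≤ q * C.card := by
  have h1 : ∑ x : Fin N, (cntS C {x} : ℝ) = ∑ A ∈ C, (A.card : ℝ) := by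
    have h2 : ∀ x : Fin N, (cntS C {x} : ℝ) = ∑ A ∈ C, (if x ∈ A then (1 : ℝ) else 0) := by
      intro x
      rw [← Finset.sum_filter, Finset.sum_const, nsmul_eq_mul, mul_one]
      unfold cntS pinS
      simp only [Finset.singleton_subset_iff]
    simp only [h2]
    rw [Finset.sum_comm]
    refine Finset.sum_congr rfl fun A _ => ?_
    rw [← Finset.sum_filter, Finset.sum_const, nsmul_eq_mul, mul_one, Finset.filter_mem_eq_inter,
      Finset.univ_inter]
  rw [h1]
  calc ∑ A ∈ C, (A.card : ℝ) ≤ ∑ A ∈ C, (q : ℝ) :=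
        Finset.sum_le_sum fun A hA => by exact_mod_cast hq A hA
    _ = q * C.card := by rw [Finset.sum_const, nsmul_eq_mul, mul_comm]

/-- Few popular vertices: at most `q / t` vertices have `P(x) ≥ t`. -/
theorem card_pop_le {C : Finset (Finset (Fin N))} {q : ℕ} (hq : ∀ A ∈ C, A.card ≤ q)
    (hC : C.Nonempty) {t : ℝ} (ht : 0 < t) :
    ((Finset.univ.filter (fun x : Fin N => t * C.card ≤ cntS C {x})).card : ℝ) ≤ q / t := by
  have hc : (0 : ℝ) < C.card := by exact_mod_cast Finset.card_pos.2 hC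
  have h1 := sum_cnt_le hq
  have h2 : (Finset.univ.filter (fun x : Fin N => t * C.card ≤ cntS C {x})).card * (t * C.card) ≤
      ∑ x : Fin N, (cntS C {x} : ℝ) := by
    rw [← nsmul_eq_mul, ← Finset.sum_const]
    refine (Finset.sum_le_sum (g := fun x => (cntS C {x} : ℝ)) ?_).trans
      (Finset.sum_le_sum_of_subset_of_nonneg (Finset.filter_subset _ _) ?_)
    · intro x hx
      exact (Finset.mem_filter.1 hx).2
    · intro x _ _
      exact Nat.cast_nonneg _
  rw [le_div_iff₀ ht]
  have h3 := h2.trans h1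
  have h4 : ((Finset.univ.filter (fun x : Fin N => t * C.card ≤ cntS C {x})).card * t) * (C.card : ℝ) ≤
      q * C.card := by
    rw [mul_assoc]
    exact h3
  exact le_of_mul_le_mul_right h4 hc

/-- The small core `T*` (maximiser of `|C_T| B ^ |T|` over `R ⊆ T`, `|T| ≤ t0`). -/
theorem exists_core {C : Finset (Finset (Fin N))} {R : Finset (Fin N)} (hR : ∀ A ∈ C, R ⊆ A)
    (hC : C.Nonempty) {B : ℝ} (hB : 0 < B) {t0 : ℕ} (hRt : R.card ≤ t0) :
    ∃ T : Finset (Fin N), R ⊆ T ∧ T.card ≤ t0 ∧ (pinS C T).Nonempty ∧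
      (C.card : ℝ) * B ^ R.card ≤ cntS C T * B ^ T.card ∧
      ∀ Y : Finset (Fin N), Disjoint Y T → T.card + Y.card ≤ t0 →
        (cntS (pinS C T) Y : ℝ) * B ^ Y.card ≤ (pinS C T).card := by
  obtain ⟨T, hT, hmax⟩ := Finset.exists_max_image
    ((Finset.univ : Finset (Finset (Fin N))).filter (fun T => R ⊆ T ∧ T.card ≤ t0))
    (fun T => (cntS C T : ℝ) * B ^ T.card)
    ⟨R, Finset.mem_filter.2 ⟨Finset.mem_univ _, Finset.Subset.refl R, hRt⟩⟩
  rw [Finset.mem_filter] at hT
  obtain ⟨-, hRT, hTc⟩ := hT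
  have h1 := hmax R (Finset.mem_filter.2 ⟨Finset.mem_univ _, Finset.Subset.refl R, hRt⟩)
  rw [cntS_of_forall hR] at h1
  have hc : (0 : ℝ) < C.card := by exact_mod_cast Finset.card_pos.2 hC
  have h2 : (0 : ℝ) < cntS C T * B ^ T.card := lt_of_lt_of_le (by positivity) h1
  have h3 : (0 : ℝ) < cntS C T := by
    by_contra h
    push Not at h
    have h4 : (cntS C T : ℝ) * B ^ T.card ≤ 0 :=
      mul_nonpos_of_nonpos_of_nonneg h (by positivity)
    linarith
  refine ⟨T, hRT, hTc, ?_, h1, ?_⟩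
  · rw [← Finset.card_pos]
    have h5 : 0 < cntS C T := by exact_mod_cast h3
    exact h5
  · intro Y hY hYc
    have hcard : (T ∪ Y).card = T.card + Y.card := Finset.card_union_of_disjoint hY.symm
    have h4 := hmax (T ∪ Y) (Finset.mem_filter.2 ⟨Finset.mem_univ _,
      hRT.trans Finset.subset_union_left, by rw [hcard]; exact hYc⟩)
    have h5 : cntS (pinS C T) Y = cntS C (T ∪ Y) := by
      unfold cntS
      rw [pinS_pinS]
    rw [h5]
    rw [hcard, pow_add, ← mul_assoc, mul_right_comm] at h4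
    exact le_of_mul_le_mul_right h4 (by positivity)

/-- Few correlated partners, (4.2): if the family is spread (`P(Y) ≤ B ^ (-|Y|)` for `Y` disjoint
from `T`, `|Y| ≤ k + 1`), `x ∉ T` and `Yx` is a set of vertices outside `T`, not containing `x`,
all with `P(y | x) ≥ θ`, then `#{A ∋ x : |A ∩ Yx| ≥ k} ≤ (q / θ) ^ k |C| B ^ (-(k+1))`. -/
theorem few_partners {C : Finset (Finset (Fin N))} {T : Finset (Fin N)} {q k : ℕ} {B θ : ℝ}
    (hq : ∀ A ∈ C, A.card ≤ q) (hB : 0 < B) (hθ : 0 < θ)
    (hs : ∀ Y : Finset (Fin N), Disjoint Y T → Y.card ≤ k + 1 → (cntS C Y : ℝ) * B ^ Y.card ≤ C.card)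
    {x : Fin N} (hx : x ∉ T) :
    (((pinS C {x}).filter (fun A => k ≤ (A ∩ Finset.univ.filter
      (fun y => y ∉ T ∧ y ≠ x ∧ θ * cntS C {x} ≤ cntS C {x, y})).card)).card : ℝ) ≤
      (q / θ) ^ k * (C.card / B ^ (k + 1)) := by
  set V' : Finset (Fin N) := Finset.univ.filter
    (fun y => y ∉ T ∧ y ≠ x ∧ θ * cntS C {x} ≤ cntS C {x, y}) with hV'
  have hpair : ∀ y : Fin N, cntS (pinS C {x}) {y} = cntS C {x, y} := by
    intro y
    unfold cntS
    rw [pinS_pinS]
    rfl
  have hK : (0 : ℝ) ≤ C.card / B ^ (k + 1) := by positivity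
  have h1 : (((pinS C {x}).filter (fun A => k ≤ (A ∩ V').card)).card : ℝ) ≤
      (V'.card : ℝ) ^ k * (C.card / B ^ (k + 1)) := by
    refine card_meet_le (fun S hSc hSV => ?_) hK
    have hxS : x ∉ S := by
      intro h
      have h2 := hSV h
      rw [hV', Finset.mem_filter] at h2
      exact h2.2.2.1 rfl
    have h2 : cntS (pinS C {x}) S = cntS C (insert x S) := by
      unfold cntS
      rw [pinS_pinS]
      rfl
    have h3 := hs (insert x S) (by
      rw [Finset.disjoint_left]
      intro y hy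
      rcases Finset.mem_insert.1 hy with rfl | hy
      · exact hx
      · have h4 := hSV hy
        rw [hV', Finset.mem_filter] at h4
        exact h4.2.1) (by
      rw [Finset.card_insert_of_notMem hxS, hSc])
    rw [Finset.card_insert_of_notMem hxS, hSc] at h3
    rw [h2, le_div_iff₀ (by positivity)]
    exact h3
  by_cases hne : (pinS C {x}).Nonempty
  · refine h1.trans (mul_le_mul_of_nonneg_right ?_ hK)
    refine pow_le_pow_left₀ (Nat.cast_nonneg _) ?_ k
    have h2 := card_pop_le (C := pinS C {x}) (q := q)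
      (fun A hA => hq A (pinS_subset C _ hA)) hne hθ
    refine le_trans ?_ h2
    have h3 : V' ⊆ Finset.univ.filter
        (fun y : Fin N => θ * (pinS C {x}).card ≤ cntS (pinS C {x}) {y}) := by
      intro y hy
      rw [hV', Finset.mem_filter] at hy
      rw [Finset.mem_filter, hpair]
      exact ⟨Finset.mem_univ _, hy.2.2.2⟩
    exact_mod_cast Finset.card_le_card h3
  · rw [Finset.not_nonempty_iff_eq_empty] at hne
    rw [hne]
    simp only [Finset.filter_empty, Finset.card_empty, Nat.cast_zero]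
    exact mul_nonneg (pow_nonneg (div_nonneg (Nat.cast_nonneg q) hθ.le) k) hK

end C0q2
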