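import Pool.Agent.W_c0up_h14.DefsG
import Pool.Agent.W_c0q2_h41.Cnt

/-!
# MP_c0ce05_co, Q2: counting popular pairs (sections 3 and 6 of proofs row 518)

`cntE C e` = number of members of `C` which contain the edge `e`. A pair is lossy at level `th` if
`P(e) > th`.
-/

set_option autoImplicit false

namespace C0q2

open scoped Classical
open C0lo C0st

variable {N : ℕ}

/-- the number of members of `C` which contain the edge `e` -/
noncomputable def cntE (C : Finset (Finset (Fin N))) (e : Sym2 (Fin N)) : ℕ :=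
  (C.filter (fun A => e ∈ ed A)).card

/-- the lossy edges of `A`: `P(e) > th` -/
noncomputable def lossy (C : Finset (Finset (Fin N))) (th : ℝ) (A : Finset (Fin N)) :
    Finset (Sym2 (Fin N)) :=
  (ed A).filter (fun e => th * C.card < cntE C e)

/-- the partners `y ∉ T` of `x` with `P(xy) > th` -/
noncomputable def part (C : Finset (Finset (Fin N))) (T : Finset (Fin N)) (th : ℝ) (x : Fin N) :
    Finset (Fin N) :=
  Finset.univ.filter (fun y => y ∉ T ∧ y ≠ x ∧ th * C.card < cntS C {x, y})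

theorem cntE_mk {C : Finset (Finset (Fin N))} {x y : Fin N} (h : x ≠ y) :
    cntE C s(x, y) = cntS C {x, y} := by
  unfold cntE cntS pinS
  congr 1
  refine Finset.filter_congr fun A _ => ?_
  rw [mem_ed, Finset.insert_subset_iff, Finset.singleton_subset_iff]
  constructor
  · rintro ⟨h1, -⟩
    exact ⟨h1 x (Sym2.mem_mk_left x y), h1 y (Sym2.mem_mk_right x y)⟩
  · rintro ⟨h1, h2⟩
    refine ⟨fun v hv => ?_, fun hd => h hd⟩
    rcases Sym2.mem_iff.1 hv with rfl | rfl
    · exact h1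
    · exact h2

/-- A lossy edge of `A` is inside `V1` or joins some `x ∈ A \ V1` to a partner of `x`. -/
theorem lossy_subset (C : Finset (Finset (Fin N))) (T V1 : Finset (Fin N)) (th : ℝ)
    (A : Finset (Fin N)) :
    lossy C th (A \ T) ⊆ ed ((A \ T) ∩ V1) ∪
      ((A \ T) \ V1).biUnion (fun x => ((A ∩ part C T th x).image (fun y => s(x, y)))) := by
  intro e he
  unfold lossy at he
  rw [Finset.mem_filter, mem_ed] at he
  obtain ⟨⟨h1, h2⟩, h3⟩ := he
  by_cases h : ∀ v ∈ e, v ∈ V1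
  · rw [Finset.mem_union]
    left
    rw [mem_ed]
    exact ⟨fun v hv => Finset.mem_inter.2 ⟨h1 v hv, h v hv⟩, h2⟩
  · push Not at h
    obtain ⟨x, hx, hxV⟩ := h
    rw [Finset.mem_union]
    right
    rw [Finset.mem_biUnion]
    obtain ⟨y, rfl⟩ := Sym2.mem_iff_exists.1 hx
    have hxy : x ≠ y := fun h => h2 h
    refine ⟨x, Finset.mem_sdiff.2 ⟨h1 x hx, hxV⟩, ?_⟩
    rw [Finset.mem_image]
    refine ⟨y, ?_, rfl⟩
    have hy := h1 y (Sym2.mem_mk_right x y)
    rw [Finset.mem_sdiff] at hy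
    rw [Finset.mem_inter]
    refine ⟨hy.1, ?_⟩
    unfold part
    rw [Finset.mem_filter]
    rw [cntE_mk hxy] at h3
    exact ⟨Finset.mem_univ _, hy.2, hxy.symm, h3⟩

theorem card_lossy_le (C : Finset (Finset (Fin N))) (T V1 : Finset (Fin N)) (th : ℝ)
    (A : Finset (Fin N)) :
    (lossy C th (A \ T)).card ≤ ((A \ T) ∩ V1).card.choose 2 +
      ∑ x ∈ (A \ T) \ V1, (A ∩ part C T th x).card := by
  refine (Finset.card_le_card (lossy_subset C T V1 th A)).trans
    ((Finset.card_union_le _ _).trans ?_)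
  rw [card_ed]
  refine Nat.add_le_add_left (Finset.card_biUnion_le.trans ?_) _
  exact Finset.sum_le_sum fun x _ => Finset.card_image_le

/-- Double counting of the second sum. -/
theorem sum_part_eq (C : Finset (Finset (Fin N))) (T V1 : Finset (Fin N)) (th : ℝ) :
    ∑ A ∈ C, ∑ x ∈ (A \ T) \ V1, ((A ∩ part C T th x).card : ℝ) =
      ∑ x ∈ Finset.univ.filter (fun x => x ∉ T ∧ x ∉ V1),
        ∑ A ∈ pinS C {x}, ((A ∩ part C T th x).card : ℝ) := by
  have h1 : ∀ A ∈ C, ∑ x ∈ (A \ T) \ V1, ((A ∩ part C T th x).card : ℝ) =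
      ∑ x ∈ Finset.univ.filter (fun x => x ∉ T ∧ x ∉ V1),
        if x ∈ A then ((A ∩ part C T th x).card : ℝ) else 0 := by
    intro A _
    rw [← Finset.sum_filter]
    refine Finset.sum_congr ?_ fun _ _ => rfl
    ext x
    rw [Finset.mem_sdiff, Finset.mem_sdiff, Finset.mem_filter, Finset.mem_filter]
    constructor
    · rintro ⟨⟨h1, h2⟩, h3⟩
      exact ⟨⟨Finset.mem_univ _, h2, h3⟩, h1⟩
    · rintro ⟨⟨-, h2, h3⟩, h1⟩
      exact ⟨⟨h1, h2⟩, h3⟩
  rw [Finset.sum_congr rfl h1, Finset.sum_comm]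
  refine Finset.sum_congr rfl fun x _ => ?_
  rw [← Finset.sum_filter]
  refine Finset.sum_congr ?_ fun _ _ => rfl
  unfold pinS
  simp only [Finset.singleton_subset_iff]

/-- The expected number of lossy edges. -/
theorem sum_lossy_le (C : Finset (Finset (Fin N))) (T V1 : Finset (Fin N)) (th : ℝ) :
    ∑ A ∈ C, ((lossy C th (A \ T)).card : ℝ) ≤
      ∑ A ∈ C, ((((A \ T) ∩ V1).card.choose 2 : ℕ) : ℝ) +
      ∑ x ∈ Finset.univ.filter (fun x => x ∉ T ∧ x ∉ V1),
        ∑ A ∈ pinS C {x}, ((A ∩ part C T th x).card : ℝ) := by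
  rw [← sum_part_eq, ← Finset.sum_add_distrib]
  refine Finset.sum_le_sum fun A _ => ?_
  exact_mod_cast card_lossy_le C T V1 th A

/-- Few partners of an unpopular vertex: `|part x| th |C| ≤ q cnt(x)`. -/
theorem card_part_le {C : Finset (Finset (Fin N))} {T : Finset (Fin N)} {q : ℕ}
    (hq : ∀ A ∈ C, A.card ≤ q) {th : ℝ} (x : Fin N) :
    ((part C T th x).card : ℝ) * (th * C.card) ≤ q * cntS C {x} := by
  have h1 := sum_cnt_le (C := pinS C {x}) (q := q) (fun A hA => hq A (pinS_subset C _ hA))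
  have h2 : ∀ y : Fin N, cntS (pinS C {x}) {y} = cntS C {x, y} := by
    intro y
    unfold cntS
    rw [pinS_pinS]
    rfl
  simp only [h2] at h1
  refine le_trans ?_ h1
  rw [← nsmul_eq_mul, ← Finset.sum_const]
  refine (Finset.sum_le_sum (g := fun y => (cntS C {x, y} : ℝ)) ?_).trans
    (Finset.sum_le_sum_of_subset_of_nonneg (Finset.filter_subset _ _) ?_)
  · intro y hy
    exact (Finset.mem_filter.1 hy).2.2.2.le
  · intro y _ _
    exact Nat.cast_nonneg _

/-- The lossy edges of Lemma P (`T = ∅`): at most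
`|C| (h1 ^ 2 / 2 + s q) + N q M ^ s K`. -/
theorem lossy_P {C : Finset (Finset (Fin N))} {V1 : Finset (Fin N)} {q s : ℕ} {th h1 thx M K : ℝ}
    (hC : C.Nonempty) (hq : ∀ A ∈ C, A.card ≤ q) (hth : 0 < th) (hM0 : 0 ≤ M)
    (hK : 0 ≤ K) (hV : ∀ A ∈ C, ((A ∩ V1).card : ℝ) ≤ h1)
    (hx : ∀ x, x ∉ V1 → (cntS C {x} : ℝ) ≤ thx * C.card)
    (hM : q * thx ≤ M * th)
    (hS : ∀ S : Finset (Fin N), S.card = s → (cntS C S : ℝ) ≤ K) :
    ∑ A ∈ C, ((lossy C th A).card : ℝ) ≤
      C.card * (h1 ^ 2 / 2 + s * q) + N * (q * (M ^ s * K)) := by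
  have hc : (0 : ℝ) < C.card := by exact_mod_cast Finset.card_pos.2 hC
  have h0 := sum_lossy_le C ∅ V1 th
  simp only [Finset.sdiff_empty, Finset.notMem_empty, not_false_eq_true, true_and] at h0
  refine h0.trans ?_
  have h2 : ∑ A ∈ C, (((A ∩ V1).card.choose 2 : ℕ) : ℝ) ≤ C.card * (h1 ^ 2 / 2) := by
    rw [← nsmul_eq_mul, ← Finset.sum_const]
    refine Finset.sum_le_sum fun A hA => ?_
    rw [Nat.cast_choose_two]
    have h3 := hV A hA
    have h4 : (0 : ℝ) ≤ (A ∩ V1).card := Nat.cast_nonneg _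
    nlinarith
  have h5 : ∑ x ∈ Finset.univ.filter (fun x => x ∉ V1),
      ∑ A ∈ pinS C {x}, ((A ∩ part C ∅ th x).card : ℝ) ≤
      C.card * (s * q) + N * (q * (M ^ s * K)) := by
    have h6 : ∀ x ∈ Finset.univ.filter (fun x => x ∉ V1),
        ∑ A ∈ pinS C {x}, ((A ∩ part C ∅ th x).card : ℝ) ≤
          s * cntS C {x} + q * (M ^ s * K) := by
      intro x hxm
      rw [Finset.mem_filter] at hxm
      have h7 := sum_meet_le (C := pinS C {x}) (V' := part C ∅ th x) (s := s) (q := q) (K := K)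
        (fun A hA => hq A (pinS_subset C _ hA))
        (fun S hSc _ => le_trans (by exact_mod_cast cntS_mono (pinS_subset C {x}) S)
          (hS S hSc)) hK
      refine h7.trans ?_
      refine add_le_add_right (mul_le_mul_of_nonneg_left (mul_le_mul_of_nonneg_right ?_ hK)
        (Nat.cast_nonneg q)) _
      refine pow_le_pow_left₀ (Nat.cast_nonneg _) ?_ s
      have h8 := card_part_le (T := ∅) (th := th) hq x
      have h9 := hx x hxm.2
      have h10 : ((part C ∅ th x).card : ℝ) * (th * C.card) ≤ (M * th) * C.card := by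
        calc ((part C ∅ th x).card : ℝ) * (th * C.card) ≤ q * cntS C {x} := h8
          _ ≤ q * (thx * C.card) := mul_le_mul_of_nonneg_left h9 (Nat.cast_nonneg q)
          _ = (q * thx) * C.card := by ring
          _ ≤ (M * th) * C.card := mul_le_mul_of_nonneg_right hM hc.le
      have h11 : ((part C ∅ th x).card : ℝ) * (th * C.card) ≤ M * (th * C.card) := by
        rw [← mul_assoc M]
        exact h10
      exact le_of_mul_le_mul_right h11 (by positivity)
    refine (Finset.sum_le_sum h6).trans ?_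
    rw [Finset.sum_add_distrib, ← Finset.mul_sum]
    refine add_le_add ?_ ?_
    · have h7 : ∑ x ∈ Finset.univ.filter (fun x => x ∉ V1), (cntS C {x} : ℝ) ≤ q * C.card :=
        (Finset.sum_le_sum_of_subset_of_nonneg (Finset.filter_subset _ _)
          fun _ _ _ => Nat.cast_nonneg _).trans (sum_cnt_le hq)
      calc (s : ℝ) * ∑ x ∈ Finset.univ.filter (fun x => x ∉ V1), (cntS C {x} : ℝ)
          ≤ s * (q * C.card) := mul_le_mul_of_nonneg_left h7 (Nat.cast_nonneg s)
        _ = C.card * (s * q) := by ring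
    · rw [Finset.sum_const, nsmul_eq_mul]
      have hMK : (0 : ℝ) ≤ q * (M ^ s * K) := by positivity
      refine mul_le_mul_of_nonneg_right ?_ hMK
      have h8 := Finset.card_le_univ (Finset.univ.filter (fun x : Fin N => x ∉ V1))
      rw [Fintype.card_fin] at h8
      exact_mod_cast h8
  calc _ ≤ C.card * (h1 ^ 2 / 2) + (C.card * (s * q) + N * (q * (M ^ s * K))) := add_le_add h2 h5
    _ = _ := by ring

end C0q2
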