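import Pool.Agent.W_c0q2_h41.PLaw

/-!
# MP_c0ce05_co, Q2: Lemma P (section 3 of proofs row 518), the cut and the inequality
-/

set_option autoImplicit false

namespace C0q2

open scoped Classical
open C0lo C0st

variable {N : ℕ}

/-- Every set with at least `t` elements in `V 0` crosses the value `t` at some step. -/
theorem card_cross_le {C : Finset (Finset (Fin N))} (V : ℕ → Finset (Fin N)) {t : ℝ} (ht : 0 < t)
    {I : ℕ} (hI : V I = ∅) :
    ((C.filter (fun A => t ≤ ((A ∩ V 0).card : ℝ))).card : ℝ) ≤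
      ∑ i ∈ Finset.range I, ((C.filter (fun A => t ≤ ((A ∩ V i).card : ℝ) ∧
        ((A ∩ V (i + 1)).card : ℝ) < t)).card : ℝ) := by
  have h1 : C.filter (fun A => t ≤ ((A ∩ V 0).card : ℝ)) ⊆
      (Finset.range I).biUnion (fun i => C.filter (fun A => t ≤ ((A ∩ V i).card : ℝ) ∧
        ((A ∩ V (i + 1)).card : ℝ) < t)) := by
    intro A hA
    rw [Finset.mem_filter] at hA
    have hex : ∃ k, ((A ∩ V k).card : ℝ) < t := ⟨I, by
      rw [hI, Finset.inter_empty, Finset.card_empty, Nat.cast_zero]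
      exact ht⟩
    obtain ⟨k, hk⟩ : ∃ k, k = Nat.find hex := ⟨_, rfl⟩
    have hks : ((A ∩ V k).card : ℝ) < t := by
      rw [hk]
      exact Nat.find_spec hex
    have hkI : k ≤ I := by
      rw [hk]
      refine Nat.find_min' hex ?_
      rw [hI, Finset.inter_empty, Finset.card_empty, Nat.cast_zero]
      exact ht
    have hk0 : k ≠ 0 := by
      rintro h0
      rw [h0] at hks
      linarith [hA.2]
    obtain ⟨j, rfl⟩ := Nat.exists_eq_succ_of_ne_zero hk0
    have hj : t ≤ ((A ∩ V j).card : ℝ) := by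
      have h2 := Nat.find_min hex (m := j) (by rw [← hk]; exact Nat.lt_succ_self j)
      exact not_lt.1 h2
    rw [Finset.mem_biUnion]
    refine ⟨j, Finset.mem_range.2 (by omega), ?_⟩
    rw [Finset.mem_filter]
    exact ⟨hA.1, hj, hks⟩
  exact_mod_cast (Finset.card_le_card h1).trans Finset.card_biUnion_le

/-- There is a step at which the value `t` is crossed with probability at least `1 / I` of the
whole. -/
theorem exists_cross {C : Finset (Finset (Fin N))} (V : ℕ → Finset (Fin N)) {t K : ℝ} (ht : 0 < t)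
    {I : ℕ} (hI : V I = ∅)
    (hK : K * I < ((C.filter (fun A => t ≤ ((A ∩ V 0).card : ℝ))).card : ℝ)) :
    ∃ i < I, K < ((C.filter (fun A => t ≤ ((A ∩ V i).card : ℝ) ∧
        ((A ∩ V (i + 1)).card : ℝ) < t)).card : ℝ) := by
  by_contra h
  push Not at h
  have h1 := card_cross_le (C := C) V ht hI
  have h2 : ∑ i ∈ Finset.range I, ((C.filter (fun A => t ≤ ((A ∩ V i).card : ℝ) ∧
        ((A ∩ V (i + 1)).card : ℝ) < t)).card : ℝ) ≤ ∑ i ∈ Finset.range I, K :=
    Finset.sum_le_sum fun i hi => h i (Finset.mem_range.1 hi)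
  rw [Finset.sum_const, Finset.card_range, nsmul_eq_mul] at h2
  linarith

/-- The heart of Lemma P: the popularity form (G') of the Gibbs inequality (`hG`) is impossible
for a family in which every set has at least `t` elements in `V'` and less than `t` elements in
`V1`. -/
theorem cut_absurd {P : GP N} {C : Finset (Finset (Fin N))} {V' V1 : Finset (Fin N)} {q s : ℕ}
    {t th thx M K Lam u D bt : ℝ} (hC : C.Nonempty) (hN : 1 ≤ N) (hq8 : 8 ≤ q)
    (hq : ∀ A ∈ C, A.card = q)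
    (hu : ∀ A ∈ C, ((ed A \ P.C).card : ℝ) ≤ u)
    (hD : ∀ A ∈ C, ((P.db.filter (fun d => d.1 ∈ ed A ∧ d.2 ∈ ed A)).card : ℝ) ≤ D)
    (hG : ∑ A ∈ C, (Real.logb 2 C.card - Real.logb 2 (wP q V' A) +
        (((ed A ∩ P.C) \ lossy C th A).card : ℝ) - Real.logb 2 (4 / 3) *
        ((P.db.filter (fun d => d.1 ∈ ed A ∧ d.2 ∈ ed A)).card : ℝ)) ≤ C.card * bt)
    (hV : (V'.card : ℝ) ≤ q * 2 ^ Lam)
    (ht : ∀ A ∈ C, t ≤ ((A ∩ V').card : ℝ)) (ht1 : ∀ A ∈ C, ((A ∩ V1).card : ℝ) < t)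
    (hL : 0 ≤ Real.logb 2 N - Lam - Real.logb 2 q)
    (hth : 0 < th) (hM0 : 0 ≤ M) (hK : 0 ≤ K)
    (hx : ∀ x, x ∉ V1 → (cntS C {x} : ℝ) ≤ thx * C.card) (hM : q * thx ≤ M * th)
    (hS : ∀ S : Finset (Fin N), S.card = s → (cntS C S : ℝ) ≤ K)
    (hn1 : q * (Real.logb 2 N - Real.logb 2 q) + 3 * q ≤ ((q.choose 2 : ℕ) : ℝ))
    (hn2 : N * (q * (M ^ s * K)) ≤ C.card)
    (hn3 : t ^ 2 / 2 + s * q + 1 + bt + u + Real.logb 2 (4 / 3) * D <
      t * (Real.logb 2 N - Lam - Real.logb 2 q)) : False := by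
  have hc : (0 : ℝ) < C.card := by exact_mod_cast Finset.card_pos.2 hC
  have hc1 : (1 : ℝ) ≤ C.card := by exact_mod_cast Finset.card_pos.2 hC
  have ht0 : 0 ≤ t := by
    obtain ⟨A, hA⟩ := hC
    have h1 := ht1 A hA
    have h2 : (0 : ℝ) ≤ (A ∩ V1).card := Nat.cast_nonneg _
    linarith
  have hlos := lossy_P hC (fun A hA => (hq A hA).le) hth hM0 hK
    (fun A hA => (ht1 A hA).le) hx hM hS
  have hg0 : 0 ≤ Real.logb 2 (4 / 3) := Real.logb_nonneg (by norm_num) (by norm_num)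
  have h1 : ∀ A ∈ C, t * (Real.logb 2 N - Lam - Real.logb 2 q) - u -
      Real.logb 2 (4 / 3) * D - ((lossy C th A).card : ℝ) ≤
      Real.logb 2 C.card - Real.logb 2 (wP q V' A) +
        (((ed A ∩ P.C) \ lossy C th A).card : ℝ) - Real.logb 2 (4 / 3) *
        ((P.db.filter (fun d => d.1 ∈ ed A ∧ d.2 ∈ ed A)).card : ℝ) := by
    intro A hA
    have h2 := logb_wP_le hN hq8 (hq A hA) hV
    have h3 : 0 ≤ Real.logb 2 (C.card : ℝ) := Real.logb_nonneg (by norm_num) hc1
    have h4 : ((ed A).card : ℝ) ≤ ((ed A \ P.C).card : ℝ) +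
        (((ed A ∩ P.C) \ lossy C th A).card : ℝ) + ((lossy C th A).card : ℝ) := by
      have h5 : ed A ⊆ ((ed A \ P.C) ∪ ((ed A ∩ P.C) \ lossy C th A)) ∪ lossy C th A := by
        intro e he
        by_cases h6 : e ∈ P.C
        · by_cases h7 : e ∈ lossy C th A
          · exact Finset.mem_union_right _ h7
          · exact Finset.mem_union_left _ (Finset.mem_union_right _
              (Finset.mem_sdiff.2 ⟨Finset.mem_inter.2 ⟨he, h6⟩, h7⟩))
        · exact Finset.mem_union_left _ (Finset.mem_union_left _ (Finset.mem_sdiff.2 ⟨he, h6⟩))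
      have h6 := (Finset.card_le_card h5).trans ((Finset.card_union_le _ _).trans
        (Nat.add_le_add_right (Finset.card_union_le _ _) _))
      exact_mod_cast h6
    rw [card_ed, hq A hA] at h4
    have h5 := hu A hA
    have h6 := mul_le_mul_of_nonneg_left (hD A hA) hg0
    have h7 := mul_le_mul_of_nonneg_right (ht A hA) hL
    linarith
  have h2 := (Finset.sum_le_sum h1).trans hG
  rw [Finset.sum_sub_distrib, Finset.sum_const, nsmul_eq_mul] at h2
  have h3 : (C.card : ℝ) * (t ^ 2 / 2 + s * q) + N * (q * (M ^ s * K)) ≤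
      C.card * (t ^ 2 / 2 + s * q + 1) := by
    rw [mul_add_one (C.card : ℝ)]
    linarith
  have h4 : (C.card : ℝ) * (t * (Real.logb 2 N - Lam - Real.logb 2 q) - u -
      Real.logb 2 (4 / 3) * D) ≤ C.card * (t ^ 2 / 2 + s * q + 1 + bt) := by
    rw [mul_add (C.card : ℝ) _ bt]
    linarith
  have h5 := le_of_mul_le_mul_left h4 hc
  linarith

end C0q2
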