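import Pool.Agent.W_c0q2_h41.TS
import Pool.Agent.W_c0q2_h41.PCut

/-!
# MP_c0ce05_co, Q2: Lemma P (section 3 of proofs row 518), statement `S_PL`
-/

set_option autoImplicit false

namespace C0q2

open scoped Classical
open C0lo C0st

variable {N q D : ℕ} {L l p : ℝ} {P : GP N}

private theorem plm_card_small (N k : ℕ) :
    ((Finset.univ : Finset (Finset (Fin N))).filter (fun R => R.card ≤ k)).card ≤ (N + 1) ^ k := by
  have h : ((Finset.univ : Finset (Finset (Fin N))).filter (fun R => R.card ≤ k)) ⊆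
      (Finset.univ : Finset (Fin k → Option (Fin N))).image
        (fun f => Finset.univ.filter (fun x => ∃ i, f i = some x)) := by
    intro R hR
    rw [Finset.mem_filter] at hR
    rw [Finset.mem_image]
    refine ⟨fun i => if h : (i : ℕ) < R.card then some (R.equivFin.symm ⟨i, h⟩ : Fin N) else none,
      Finset.mem_univ _, ?_⟩
    ext x
    rw [Finset.mem_filter]
    constructor
    · rintro ⟨_, i, hi⟩
      dsimp only at hi
      by_cases h : (i : ℕ) < R.card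
      · rw [dif_pos h] at hi
        rw [← Option.some.inj hi]
        exact (R.equivFin.symm ⟨i, h⟩).2
      · rw [dif_neg h] at hi
        exact absurd hi (by simp)
    · intro hx
      refine ⟨Finset.mem_univ _, ⟨R.equivFin ⟨x, hx⟩,
        lt_of_lt_of_le (R.equivFin ⟨x, hx⟩).2 hR.2⟩, ?_⟩
      dsimp only
      rw [dif_pos (R.equivFin ⟨x, hx⟩).2]
      simp
  refine (Finset.card_le_card h).trans (Finset.card_image_le.trans ?_)
  rw [Finset.card_univ, Fintype.card_fun, Fintype.card_option, Fintype.card_fin, Fintype.card_fin]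

/-- the level `Λ_i = (1 - al) L - i l` -/
noncomputable def lamP (L l : ℝ) (i : ℕ) : ℝ := (1 - 1 / 2400000) * L - i * l

/-- the number of copies at level `i` -/
noncomputable def mP (L l : ℝ) (i : ℕ) : ℕ := ⌈L ^ 3 * (2 : ℝ) ^ lamP L l i⌉₊

/-- the data at level `i`: sets with at most `q 2 ^ Λ_i` vertices -/
abbrev DtP (N q : ℕ) (L l : ℝ) (i : ℕ) : Type :=
  {V : Finset (Fin N) // (V.card : ℝ) ≤ q * (2 : ℝ) ^ lamP L l i}

theorem card_DtP_le (N q : ℕ) (L l : ℝ) (i : ℕ) :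
    Fintype.card (DtP N q L l i) ≤ (N + 1) ^ ⌊q * (2 : ℝ) ^ lamP L l i⌋₊ := by
  refine le_trans ?_ (plm_card_small N ⌊q * (2 : ℝ) ^ lamP L l i⌋₊)
  rw [Fintype.card_subtype]
  refine Finset.card_le_card fun V hV => ?_
  rw [Finset.mem_filter] at hV ⊢
  exact ⟨hV.1, Nat.le_floor hV.2⟩

theorem card_DtP_pos (N q : ℕ) (L l : ℝ) (i : ℕ) : 0 < Fintype.card (DtP N q L l i) := by
  refine Fintype.card_pos_iff.2 ⟨⟨∅, ?_⟩⟩
  rw [Finset.card_empty, Nat.cast_zero]
  positivity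

theorem mP_pos (h : Big N q L l) (i : ℕ) : 1 ≤ mP L l i := by
  have hL := pl_L0 h
  have hL0 : (0 : ℝ) < L := lt_of_lt_of_le (by norm_num) hL
  unfold mP
  exact Nat.ceil_pos.2 (by positivity)

/-- the system of Lemma P -/
theorem PL_sys (hG : S_G) (h : Big N q L l) :
    Sys N (1 / 64) (fun P => Vd P L → ∀ i < ⌈L⌉₊, ∀ V' : Finset (Fin N),
      (V'.card : ℝ) ≤ q * (2 : ℝ) ^ lamP L l i → ∀ C : Finset (Finset (Fin N)), C.Nonempty →
      (∀ A ∈ C, Disjoint (ed A) P.K ∧ A.card = q) →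
      ∑ A ∈ C, (Real.logb 2 (C.card : ℝ) - Real.logb 2 (wP q V' A) +
        (((ed A ∩ P.C) \ lossy C (1 / (L ^ 12 * mP L l i)) A).card : ℝ) -
        Real.logb 2 (4 / 3) *
          ((P.db.filter (fun d => d.1 ∈ ed A ∧ d.2 ∈ ed A)).card : ℝ)) ≤
      C.card * ((Real.logb 2 (Fintype.card (DtP N q L l i) : ℝ) +
        Real.logb 2 (64 * ⌈L⌉₊)) / mP L l i + 2)) := by
  have hL := pl_L0 h
  have hL0 : (0 : ℝ) < L := lt_of_lt_of_le (by norm_num) hL
  have hI : 0 < ⌈L⌉₊ := Nat.ceil_pos.2 hL0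
  have hI0 : (0 : ℝ) < (⌈L⌉₊ : ℝ) := by exact_mod_cast hI
  have h1 : ∀ k : Fin ⌈L⌉₊, Sys N (1 / (64 * (⌈L⌉₊ : ℝ))) (fun P => Vd P L →
      ∀ V' : Finset (Fin N),
      (V'.card : ℝ) ≤ q * (2 : ℝ) ^ lamP L l k → ∀ C : Finset (Finset (Fin N)), C.Nonempty →
      (∀ A ∈ C, Disjoint (ed A) P.K ∧ A.card = q) →
      ∑ A ∈ C, (Real.logb 2 (C.card : ℝ) - Real.logb 2 (wP q V' A) +
        (((ed A ∩ P.C) \ lossy C (1 / (L ^ 12 * mP L l k)) A).card : ℝ) -
        Real.logb 2 (4 / 3) *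
          ((P.db.filter (fun d => d.1 ∈ ed A ∧ d.2 ∈ ed A)).card : ℝ)) ≤
      C.card * ((Real.logb 2 (Fintype.card (DtP N q L l k) : ℝ) +
        Real.logb 2 (64 * ⌈L⌉₊)) / mP L l k + 2)) := by
    intro k
    have h2 := hG N L h.L_def (le_trans (by norm_num) hL) (DtP N q L l k) inferInstance
      (mP L l k) (fun _ => ∅) (fun d A => if A.card = q then (wP q d.1 A)⁻¹ else 0)
      (1 / (64 * (⌈L⌉₊ : ℝ))) (mP_pos h k) (by positivity)
      (by
        intro d A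
        split_ifs with h3
        · exact inv_nonneg.2 (wP_pos h3).le
        · exact le_rfl)
      (fun d => wP_kraft q d.1)
    refine h2.mono le_rfl ?_
    intro P hP hV V' hV' C hC hCA
    have h3 := hP hV ⟨V', hV'⟩ C hC (by
      intro A hA
      refine ⟨(hCA A hA).1, ?_, ?_⟩
      · rw [(hCA A hA).2]
        exact pl_q2 h
      · dsimp only
        rw [if_pos (hCA A hA).2]
        exact inv_pos.2 (wP_pos (hCA A hA).2))
    have h4 : (1 : ℝ) / (1 / (64 * (⌈L⌉₊ : ℝ))) = 64 * ⌈L⌉₊ := by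
      rw [one_div_one_div]
    rw [h4] at h3
    rw [mul_comm (C.card : ℝ)]
    refine le_trans (le_of_eq ?_) h3
    refine Finset.sum_congr rfl fun A hA => ?_
    dsimp only
    rw [if_pos (hCA A hA).2, Real.logb_inv, Finset.sdiff_empty]
    unfold g0 lk
    ring
  refine (Sys.all h1).mono ?_ ?_
  · rw [Finset.sum_const, Finset.card_univ, Fintype.card_fin, nsmul_eq_mul]
    rw [mul_one_div, div_le_div_iff₀ (by positivity) (by norm_num)]
    linarith
  · intro P hP hV i hi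
    exact hP ⟨i, hi⟩ hV

theorem plm_g0 : Real.logb 2 (4 / 3) ≤ 1 / 2 := by
  have h1 : Real.logb 2 ((4 / 3 : ℝ) ^ 2) ≤ Real.logb 2 2 :=
    Real.logb_le_logb_of_le (by norm_num) (by norm_num) (by norm_num)
  rw [Real.logb_pow, Real.logb_self_eq_one (by norm_num)] at h1
  push_cast at h1
  linarith

theorem plm_logq_le (h : Big N q L l) : Real.logb 2 (q : ℝ) ≤ l + 1 := by
  have hL := pl_L0 h
  have hL0 : (0 : ℝ) < L := lt_of_lt_of_le (by norm_num) hL
  have hq0 : (0 : ℝ) < q := lt_of_lt_of_le hL0 (pl_q1 h)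
  have h1 : (q : ℝ) ≤ 2 * L := pl_q2 h
  have h2 := Real.logb_le_logb_of_le (by norm_num : (1 : ℝ) < 2) hq0 h1
  rw [Real.logb_mul (by norm_num) hL0.ne', Real.logb_self_eq_one (by norm_num), ← h.l_def] at h2
  linarith

theorem plm_le_logq (h : Big N q L l) : l ≤ Real.logb 2 (q : ℝ) := by
  have hL := pl_L0 h
  have hL0 : (0 : ℝ) < L := lt_of_lt_of_le (by norm_num) hL
  rw [h.l_def]
  exact Real.logb_le_logb_of_le (by norm_num) hL0 (pl_q1 h)

theorem plm_hn1 (h : Big N q L l) :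
    q * (Real.logb 2 N - Real.logb 2 q) + 3 * q ≤ ((q.choose 2 : ℕ) : ℝ) := by
  have h1 := plm_le_logq h
  have h2 := h.q_ge
  have hq0 : (0 : ℝ) ≤ q := Nat.cast_nonneg q
  rw [Nat.cast_choose_two, ← h.L_def]
  have h3 : L - Real.logb 2 q + 3 ≤ ((q : ℝ) - 1) / 2 := by
    norm_num at h2
    linarith
  calc q * (L - Real.logb 2 q) + 3 * q = q * (L - Real.logb 2 q + 3) := by ring
    _ ≤ q * (((q : ℝ) - 1) / 2) := mul_le_mul_of_nonneg_left h3 hq0
    _ = _ := by ring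

theorem plm_ceil (h : Big N q L l) : ((⌈L⌉₊ : ℕ) : ℝ) ≤ 2 * L := by
  have hL := pl_L0 h
  have hL0 : (0 : ℝ) < L := lt_of_lt_of_le (by norm_num) hL
  have h1 := (Nat.ceil_lt_add_one hL0.le).le
  have h2 : (1 : ℝ) ≤ L := le_trans (by norm_num) hL
  linarith

theorem plm_mP_ge (L l : ℝ) (i : ℕ) : L ^ 3 * (2 : ℝ) ^ lamP L l i ≤ mP L l i :=
  Nat.le_ceil _

theorem plm_mP_le (h : Big N q L l) {i : ℕ} (hi : 0 ≤ lamP L l i) :
    (mP L l i : ℝ) ≤ 2 * (L ^ 3 * (2 : ℝ) ^ lamP L l i) := by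
  have hL := pl_L0 h
  have hL0 : (0 : ℝ) < L := lt_of_lt_of_le (by norm_num) hL
  have hL1 : (1 : ℝ) ≤ L := le_trans (by norm_num) hL
  have h1 : (1 : ℝ) ≤ L ^ 3 * (2 : ℝ) ^ lamP L l i := by
    have h2 : (1 : ℝ) ≤ L ^ 3 := one_le_pow₀ hL1
    have h3 : (1 : ℝ) ≤ (2 : ℝ) ^ lamP L l i := Real.one_le_rpow (by norm_num) hi
    nlinarith
  have h2 := (Nat.ceil_lt_add_one (by positivity : 0 ≤ L ^ 3 * (2 : ℝ) ^ lamP L l i)).le
  unfold mP
  linarith

theorem plm_bt (h : Big N q L l) {i : ℕ} (hi : 0 ≤ lamP L l i) :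
    (Real.logb 2 (Fintype.card (DtP N q L l i) : ℝ) + Real.logb 2 (64 * ⌈L⌉₊)) / mP L l i + 2 ≤
      3 := by
  have hL := pl_L0 h
  have hL0 : (0 : ℝ) < L := lt_of_lt_of_le (by norm_num) hL
  have hL1 : (1 : ℝ) ≤ L := le_trans (by norm_num) hL
  have hN := pl_N_eq h
  have hN0 := pl_Npos h
  have hm : (0 : ℝ) < mP L l i := by exact_mod_cast mP_pos h i
  have hE : (1 : ℝ) ≤ (2 : ℝ) ^ lamP L l i := Real.one_le_rpow (by norm_num) hi
  have h1 : Real.logb 2 (Fintype.card (DtP N q L l i) : ℝ) ≤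
      (q * (2 : ℝ) ^ lamP L l i) * (L + 1) := by
    have h2 : ((Fintype.card (DtP N q L l i) : ℕ) : ℝ) ≤
        ((N : ℝ) + 1) ^ ⌊q * (2 : ℝ) ^ lamP L l i⌋₊ := by
      exact_mod_cast card_DtP_le N q L l i
    have h3 : (0 : ℝ) < (Fintype.card (DtP N q L l i) : ℕ) := by
      exact_mod_cast card_DtP_pos N q L l i
    have h4 := Real.logb_le_logb_of_le (by norm_num : (1 : ℝ) < 2) h3 h2
    rw [Real.logb_pow] at h4
    have h5 : Real.logb 2 ((N : ℝ) + 1) ≤ L + 1 := by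
      have h6 : (N : ℝ) + 1 ≤ (2 : ℝ) ^ (L + 1) := by
        rw [Real.rpow_add (by norm_num), ← hN, Real.rpow_one]
        have h7 : (1 : ℝ) ≤ N := by
          rw [hN]
          exact Real.one_le_rpow (by norm_num) hL0.le
        linarith
      have h7 := Real.logb_le_logb_of_le (by norm_num : (1 : ℝ) < 2) (by positivity) h6
      rwa [Real.logb_rpow (by norm_num) (by norm_num)] at h7
    have h6 : ((⌊q * (2 : ℝ) ^ lamP L l i⌋₊ : ℕ) : ℝ) ≤ q * (2 : ℝ) ^ lamP L l i :=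
      Nat.floor_le (by positivity)
    refine h4.trans ?_
    exact mul_le_mul h6 h5 (Real.logb_nonneg (by norm_num) (by linarith)) (by positivity)
  have h2 : Real.logb 2 (64 * (⌈L⌉₊ : ℝ)) ≤ L := by
    have hI : 0 < ⌈L⌉₊ := Nat.ceil_pos.2 hL0
    have hI0 : (0 : ℝ) < (⌈L⌉₊ : ℝ) := by exact_mod_cast hI
    have h3 := plm_ceil h
    have h4 : 64 * (⌈L⌉₊ : ℝ) ≤ 2 ^ (7 : ℝ) * L := by
      have h5 : (2 : ℝ) ^ (7 : ℝ) = 128 := by
        rw [show (7 : ℝ) = ((7 : ℕ) : ℝ) by norm_num, Real.rpow_natCast]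
        norm_num
      rw [h5]
      linarith
    have h5 := Real.logb_le_logb_of_le (by norm_num : (1 : ℝ) < 2) (by positivity) h4
    rw [Real.logb_mul (by positivity) hL0.ne', Real.logb_rpow (by norm_num) (by norm_num),
      ← h.l_def] at h5
    have h6 := h.l_sm
    have h7 := h.l_big
    norm_num at h7 h6
    linarith
  have h3 : (Real.logb 2 (Fintype.card (DtP N q L l i) : ℝ) + Real.logb 2 (64 * (⌈L⌉₊ : ℝ))) ≤
      1 * mP L l i := by
    have h4 := plm_mP_ge L l i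
    have h5 : (q : ℝ) ≤ 2 * L := pl_q2 h
    have h6 : (q * (2 : ℝ) ^ lamP L l i) * (L + 1) + L ≤ L ^ 3 * (2 : ℝ) ^ lamP L l i := by
      have h7 : (q * (2 : ℝ) ^ lamP L l i) * (L + 1) ≤
          (2 * L * (2 : ℝ) ^ lamP L l i) * (2 * L) :=
        mul_le_mul (mul_le_mul_of_nonneg_right h5 (by positivity)) (by linarith) (by positivity)
          (by positivity)
      have h8 : L ≤ L ^ 2 * (2 : ℝ) ^ lamP L l i := by nlinarith [sq_nonneg L]
      have h9 : (5 : ℝ) * (L ^ 2 * (2 : ℝ) ^ lamP L l i) ≤ L ^ 3 * (2 : ℝ) ^ lamP L l i := by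
        have h10 : (5 : ℝ) ≤ L := le_trans (by norm_num) hL
        have h11 : (0 : ℝ) ≤ L ^ 2 * (2 : ℝ) ^ lamP L l i := by positivity
        calc (5 : ℝ) * (L ^ 2 * (2 : ℝ) ^ lamP L l i) ≤ L * (L ^ 2 * (2 : ℝ) ^ lamP L l i) :=
              mul_le_mul_of_nonneg_right h10 h11
          _ = _ := by ring
      nlinarith
    linarith
  have h4 : (Real.logb 2 (Fintype.card (DtP N q L l i) : ℝ) + Real.logb 2 (64 * (⌈L⌉₊ : ℝ))) /
      mP L l i ≤ 1 := by
    rw [div_le_iff₀ hm]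
    exact h3
  linarith

/-- **Lemma P** -/
theorem S_PL_holds (hG : S_G) : S_PL := by
  intro N q L l hb
  refine (PL_sys hG hb).mono le_rfl ?_
  intro P hPG D p hc hF1 C hC hCbig
  have hL := pl_L0 hb
  have hL0 : (0 : ℝ) < L := lt_of_lt_of_le (by norm_num) hL
  have hL1 : (1 : ℝ) ≤ L := le_trans (by norm_num) hL
  have hN := pl_N_eq hb
  have hN0 := pl_Npos hb
  have hLe := pl_L_eq hb
  have hlb := hb.l_big
  have hls := hb.l_sm
  have hp1 := hc.p1
  have hp2 := hc.p2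
  have hp0 : (0 : ℝ) < p := lt_of_lt_of_le (by norm_num) hp1
  have hq2 := pl_q2 hb
  have hq1 := pl_q1 hb
  have hI : 0 < ⌈L⌉₊ := Nat.ceil_pos.2 hL0
  have hI0 : (0 : ℝ) < (⌈L⌉₊ : ℝ) := by exact_mod_cast hI
  have hI2 := plm_ceil hb
  by_contra hcon
  push Not at hcon
  have hCpos : (0 : ℝ) < C.card := lt_of_lt_of_le (by positivity) hCbig
  have hCne : C.Nonempty := by
    rw [← Finset.card_pos]
    exact_mod_cast hCpos
  have hqC : ∀ A ∈ C, A.card ≤ q := fun A hA => (mem_Fam.1 (hC hA)).1.le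
  -- the cuts
  obtain ⟨V, hVdef⟩ : ∃ V : ℕ → Finset (Fin N), V = fun i => Finset.univ.filter
    (fun x => (2 : ℝ) ^ (-lamP L l i) * C.card ≤ cntS C {x}) := ⟨_, rfl⟩
  have hV0 : V 0 = popV C L := by
    rw [hVdef]
    unfold popV lamP
    refine Finset.filter_congr fun x _ => ?_
    rw [Nat.cast_zero, zero_mul, sub_zero, neg_mul]
  have hneg : ∀ i, (V i).Nonempty → 0 ≤ lamP L l i := by
    rintro i ⟨x, hx⟩
    rw [hVdef, Finset.mem_filter] at hx
    have h1 : (cntS C {x} : ℝ) ≤ C.card := by exact_mod_cast cntS_le C {x}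
    by_contra h2
    push Not at h2
    have h3 : (1 : ℝ) < (2 : ℝ) ^ (-lamP L l i) := Real.one_lt_rpow (by norm_num) (by linarith)
    have h4 := hx.2
    nlinarith
  have hVI : V ⌈L⌉₊ = ∅ := by
    rw [← Finset.not_nonempty_iff_eq_empty]
    intro h1
    have h2 := hneg _ h1
    unfold lamP at h2
    have h3 : L ≤ (⌈L⌉₊ : ℝ) := Nat.le_ceil L
    have h4 : L * 1 ≤ (⌈L⌉₊ : ℝ) * l :=
      mul_le_mul h3 (le_trans (by norm_num) hlb) (by norm_num) hI0.le
    linarith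
  have ht0 : (0 : ℝ) < 24000000 * p := by positivity
  have hL3 : (0 : ℝ) < L ^ 3 := by positivity
  obtain ⟨i, hi, hcut⟩ := exists_cross (C := C) V ht0 hVI
    (K := C.card / (L ^ 3 * (⌈L⌉₊ : ℝ))) (by
      rw [hV0]
      have h1 : (C.card : ℝ) / (L ^ 3 * (⌈L⌉₊ : ℝ)) * (⌈L⌉₊ : ℝ) = C.card / L ^ 3 := by
        field_simp
      rw [h1, div_lt_iff₀ hL3]
      linarith)
  obtain ⟨C', hC'⟩ : ∃ C', C' = C.filter (fun A => 24000000 * p ≤ ((A ∩ V i).card : ℝ) ∧
        ((A ∩ V (i + 1)).card : ℝ) < 24000000 * p) := ⟨_, rfl⟩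
  rw [← hC'] at hcut
  have hC'C : C' ⊆ C := by
    rw [hC']
    exact Finset.filter_subset _ _
  have hmem : ∀ A ∈ C', A ∈ C ∧ 24000000 * p ≤ ((A ∩ V i).card : ℝ) ∧
        ((A ∩ V (i + 1)).card : ℝ) < 24000000 * p := by
    intro A hA
    rw [hC', Finset.mem_filter] at hA
    exact hA
  have hC'pos : (0 : ℝ) < C'.card := lt_of_le_of_lt (by positivity) hcut
  have hC'ne : C'.Nonempty := by
    rw [← Finset.card_pos]
    exact_mod_cast hC'pos
  have hC'big : (C.card : ℝ) ≤ 2 * L ^ 4 * C'.card := by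
    rw [div_lt_iff₀ (by positivity)] at hcut
    have h1 : (C'.card : ℝ) * (L ^ 3 * (⌈L⌉₊ : ℝ)) ≤ C'.card * (L ^ 3 * (2 * L)) :=
      mul_le_mul_of_nonneg_left (mul_le_mul_of_nonneg_left hI2 hL3.le) hC'pos.le
    nlinarith
  have hVne : (V i).Nonempty := by
    obtain ⟨A, hA⟩ := hC'ne
    have h1 := (hmem A hA).2.1
    rw [← Finset.card_pos]
    have h2 : ((A ∩ V i).card : ℝ) ≤ ((V i).card : ℝ) := by
      exact_mod_cast Finset.card_le_card Finset.inter_subset_right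
    have h3 : (0 : ℝ) < ((V i).card : ℝ) := by linarith
    exact_mod_cast h3
  have hlam := hneg i hVne
  have hE : (1 : ℝ) ≤ (2 : ℝ) ^ lamP L l i := Real.one_le_rpow (by norm_num) hlam
  have hVc : ((V i).card : ℝ) ≤ q * (2 : ℝ) ^ lamP L l i := by
    have h1 := card_pop_le hqC hCne (t := (2 : ℝ) ^ (-lamP L l i)) (by positivity)
    have h2 : (q : ℝ) / (2 : ℝ) ^ (-lamP L l i) = q * (2 : ℝ) ^ lamP L l i := by
      rw [Real.rpow_neg (by norm_num), div_inv_eq_mul]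
    rw [h2] at h1
    rw [hVdef]
    exact h1
  have hGi := hPG hc.val i hi (V i) hVc C' hC'ne (fun A hA => by
    have h1 := mem_Fam.1 (hC (hC'C hA))
    exact ⟨h1.2.1, h1.1⟩)
  have hbt := plm_bt hb hlam
  have hDreal := hc.hD
  have hmpos : (0 : ℝ) < mP L l i := by exact_mod_cast mP_pos hb i
  have hlq := plm_logq_le hb
  have hlamle : lamP L l i ≤ (1 - 1 / 2400000) * L := by
    unfold lamP
    have h1 : (0 : ℝ) ≤ i * l := by positivity
    linarith
  have hgap : 1 / 2400000 * L - (l + 1) ≤ Real.logb 2 N - lamP L l i - Real.logb 2 q := by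
    rw [← hb.L_def]
    linarith
  have hgap0 : 0.99 / 2400000 * L ≤ 1 / 2400000 * L - (l + 1) := by
    norm_num at hlb hls ⊢
    linarith
  have hs1 : 1.3 * p < ((⌊1.3 * p⌋₊ + 1 : ℕ) : ℝ) := by
    push_cast
    exact Nat.lt_floor_add_one _
  have hs2 : ((⌊1.3 * p⌋₊ + 1 : ℕ) : ℝ) ≤ 1.3 * p + 1 := by
    push_cast
    have h1 : ((⌊1.3 * p⌋₊ : ℕ) : ℝ) ≤ 1.3 * p := Nat.floor_le (by positivity)
    linarith
  refine cut_absurd (P := P) (C := C') (V' := V i) (V1 := V (i + 1)) (q := q)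
    (s := ⌊1.3 * p⌋₊ + 1) (t := 24000000 * p) (th := 1 / (L ^ 12 * mP L l i))
    (thx := 2 * L ^ 5 * (2 : ℝ) ^ (-lamP L l i)) (M := L ^ 22)
    (K := (2 : ℝ) ^ ((0.00255 * p + 101) * L)) (Lam := lamP L l i) (u := 0.005 * p * L)
    (D := 2 * p * L) (bt := 3) hC'ne ?_ ?_ ?_ ?_ ?_ ?_ hVc (fun A hA => (hmem A hA).2.1)
    (fun A hA => (hmem A hA).2.2) ?_ (by positivity) (by positivity) (by positivity) ?_ ?_ ?_
    (plm_hn1 hb) ?_ ?_
  · -- `1 ≤ N`
    exact_mod_cast hN0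
  · -- `8 ≤ q`
    have h1 : (8 : ℝ) ≤ q := le_trans (le_trans (by norm_num) hL) hq1
    exact_mod_cast h1
  · intro A hA
    exact (mem_Fam.1 (hC (hC'C hA))).1
  · intro A hA
    have h1 := (mem_Fam.1 (hC (hC'C hA))).2.2.2
    have h2 : 400 * ((ed A \ P.C).card : ℝ) ≤ D := by exact_mod_cast h1
    rw [hDreal] at h2
    linarith
  · intro A hA
    have h1 := (mem_Fam.1 (hC (hC'C hA))).2.2.1
    have h2 : ((P.db.filter (fun d => d.1 ∈ ed A ∧ d.2 ∈ ed A)).card : ℝ) = D := by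
      exact_mod_cast h1
    rw [h2, hDreal]
  · exact hGi.trans (mul_le_mul_of_nonneg_left hbt hC'pos.le)
  · -- `0 ≤ L - Λ - log q`
    have h1 : (0 : ℝ) ≤ 0.99 / 2400000 * L := by positivity
    linarith
  · -- unpopular vertices
    intro x hx
    have h1 : (cntS C {x} : ℝ) < (2 : ℝ) ^ (-lamP L l (i + 1)) * C.card := by
      rw [hVdef, Finset.mem_filter] at hx
      push Not at hx
      exact hx (Finset.mem_univ _)
    have h2 : (cntS C' {x} : ℝ) ≤ cntS C {x} := by exact_mod_cast cntS_mono hC'C {x}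
    have h3 : (2 : ℝ) ^ (-lamP L l (i + 1)) = (2 : ℝ) ^ (-lamP L l i) * L := by
      have h4 : -lamP L l (i + 1) = -lamP L l i + l := by
        unfold lamP
        push_cast
        ring
      rw [h4, Real.rpow_add (by norm_num), ← hLe]
    rw [h3] at h1
    calc (cntS C' {x} : ℝ) ≤ (2 : ℝ) ^ (-lamP L l i) * L * C.card := h2.trans h1.le
      _ ≤ (2 : ℝ) ^ (-lamP L l i) * L * (2 * L ^ 4 * C'.card) :=
          mul_le_mul_of_nonneg_left hC'big (by positivity)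
      _ = _ := by ring
  · -- `q thx ≤ M th`
    have h1 := plm_mP_le hb hlam
    have h2 : (2 : ℝ) ^ (-lamP L l i) * (2 : ℝ) ^ lamP L l i = 1 := by
      rw [← Real.rpow_add (by norm_num), neg_add_cancel, Real.rpow_zero]
    rw [mul_one_div, le_div_iff₀ (by positivity)]
    calc (q : ℝ) * (2 * L ^ 5 * (2 : ℝ) ^ (-lamP L l i)) * (L ^ 12 * mP L l i)
        ≤ (2 * L) * (2 * L ^ 5 * (2 : ℝ) ^ (-lamP L l i)) *
          (L ^ 12 * (2 * (L ^ 3 * (2 : ℝ) ^ lamP L l i))) := by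
          refine mul_le_mul (mul_le_mul_of_nonneg_right hq2 (by positivity))
            (mul_le_mul_of_nonneg_left h1 (by positivity)) (by positivity) (by positivity)
      _ = 8 * L ^ 21 * ((2 : ℝ) ^ (-lamP L l i) * (2 : ℝ) ^ lamP L l i) := by ring
      _ = 8 * L ^ 21 := by rw [h2, mul_one]
      _ ≤ L * L ^ 21 := mul_le_mul_of_nonneg_right (le_trans (by norm_num) hL) (by positivity)
      _ = L ^ 22 := by ring
  · -- Fact 1
    intro S hS
    have h1 := hF1 S (by rw [hS]; exact hs1)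
    have h2 : (cntS C' S : ℝ) ≤ cntS (Fam P q D) S := by
      exact_mod_cast cntS_mono (hC'C.trans hC) S
    exact h2.trans h1.le
  · -- `N q M ^ s K ≤ |C'|`
    have h1 : (N : ℝ) * (q * ((L ^ 22) ^ (⌊1.3 * p⌋₊ + 1) *
        (2 : ℝ) ^ ((0.00255 * p + 101) * L))) ≤
        (2 : ℝ) ^ (L + (l + 1) + l * 22 * (1.3 * p + 1) + (0.00255 * p + 101) * L) := by
      have h2 : ((L ^ 22) ^ (⌊1.3 * p⌋₊ + 1) : ℝ) ≤ (2 : ℝ) ^ (l * 22 * (1.3 * p + 1)) := by
        have h3 : L ^ 22 = (2 : ℝ) ^ (l * 22) := by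
          have h4 := TS_pow l 22
          rw [← hLe] at h4
          rw [h4]
          norm_num
        rw [h3, TS_pow]
        refine Real.rpow_le_rpow_of_exponent_le (by norm_num) ?_
        exact mul_le_mul_of_nonneg_left hs2 (by positivity)
      have h3 : (q : ℝ) ≤ (2 : ℝ) ^ (l + 1) := by
        rw [Real.rpow_add (by norm_num), Real.rpow_one, ← hLe]
        linarith
      rw [Real.rpow_add (by norm_num), Real.rpow_add (by norm_num), Real.rpow_add (by norm_num),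
        ← hN, mul_assoc, mul_assoc]
      refine mul_le_mul_of_nonneg_left ?_ hN0.le
      exact mul_le_mul h3 (mul_le_mul_of_nonneg_right h2 (by positivity)) (by positivity)
        (by positivity)
    have h2 : 2 * L ^ 4 = (2 : ℝ) ^ (1 + l * 4) := by
      have h4 := TS_pow l 4
      rw [← hLe] at h4
      rw [Real.rpow_add (by norm_num), Real.rpow_one, h4]
      norm_num
    have h3 : (2 : ℝ) ^ (L + (l + 1) + l * 22 * (1.3 * p + 1) + (0.00255 * p + 101) * L) *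
        (2 * L ^ 4) ≤ (2 : ℝ) ^ ((0.00265 * p + 104) * L) := by
      rw [h2, ← Real.rpow_add (by norm_num)]
      refine Real.rpow_le_rpow_of_exponent_le (by norm_num) ?_
      have h5 : l * p * 10 ^ 40 ≤ L * p := by
        have := mul_le_mul_of_nonneg_right hls hp0.le
        linarith
      norm_num at h5 hls hlb ⊢
      nlinarith
    have h4 : (N : ℝ) * (q * ((L ^ 22) ^ (⌊1.3 * p⌋₊ + 1) *
        (2 : ℝ) ^ ((0.00255 * p + 101) * L))) * (2 * L ^ 4) ≤ C'.card * (2 * L ^ 4) := by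
      calc _ ≤ _ := mul_le_mul_of_nonneg_right h1 (by positivity)
        _ ≤ (2 : ℝ) ^ ((0.00265 * p + 104) * L) := h3
        _ ≤ C.card := hCbig
        _ ≤ 2 * L ^ 4 * C'.card := hC'big
        _ = _ := by ring
    exact le_of_mul_le_mul_right h4 (by positivity)
  · -- the numbers
    have h1 := plm_g0
    have h2 : Real.logb 2 (4 / 3) * (2 * p * L) ≤ 1 / 2 * (2 * p * L) :=
      mul_le_mul_of_nonneg_right h1 (by positivity)
    have h3 : 24000000 * p * (0.99 / 2400000 * L) ≤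
        24000000 * p * (Real.logb 2 N - lamP L l i - Real.logb 2 q) :=
      mul_le_mul_of_nonneg_left (hgap0.trans hgap) ht0.le
    have h4 : (24000000 * p) ^ 2 / 2 ≤ 0.01 * (p * L) := by
      have h5 : 10 ^ 17 * p * p ≤ L * p := mul_le_mul_of_nonneg_right hp2 hp0.le
      norm_num at h5 ⊢
      nlinarith
    have h5 : ((⌊1.3 * p⌋₊ + 1 : ℕ) : ℝ) * q ≤ (1.3 * p + 1) * (2 * L) :=
      mul_le_mul hs2 hq2 (Nat.cast_nonneg _) (by positivity)
    have h6 : 10 ^ 15 * L ≤ p * L := mul_le_mul_of_nonneg_right hp1 hL0.le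
    norm_num at h6 h4 h3 h5 hL ⊢
    nlinarith

end C0q2
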