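import Pool.Agent.W_c0q2_h41.Lossy

/-!
# MP_c0ce05_co, Q2: lossy pairs outside the core `T*` (sections 4 and 6 of proofs row 518)
-/

set_option autoImplicit false

namespace C0q2

open scoped Classical
open C0lo C0st

variable {N : ℕ}

/-- The expected number of lossy pairs of `A \ T`, if the family is spread outside `T` and few
members have many popular vertices. -/
theorem lossy_T {C : Finset (Finset (Fin N))} {T V1 : Finset (Fin N)} {q k : ℕ}
    {B θ th thx τ h1 e1 e2 : ℝ} (hC : C.Nonempty) (hq : ∀ A ∈ C, A.card ≤ q) (hB : 0 < B)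
    (hθ : 0 < θ) (hh : 0 ≤ h1) (he2 : 0 ≤ e2) (hτ : 0 ≤ τ)
    (hs : ∀ Y : Finset (Fin N), Disjoint Y T → Y.card ≤ k + 1 →
      (cntS C Y : ℝ) * B ^ Y.card ≤ C.card)
    (hP : ((C.filter (fun A => h1 ≤ ((A ∩ V1).card : ℝ))).card : ℝ) ≤ e1 * C.card)
    (hx : ∀ x, x ∉ V1 → (cntS C {x} : ℝ) ≤ thx * C.card)
    (hθx : θ * thx ≤ th)
    (hk : (q / θ) ^ k / B ^ (k + 1) ≤ e2 * τ) :
    ∑ A ∈ C, ((lossy C th (A \ T)).card : ℝ) ≤
      C.card * (h1 ^ 2 / 2 + e1 * q ^ 2 / 2 + (k + q * e2) * q + N * (q * τ)) := by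
  have hc : (0 : ℝ) < C.card := by exact_mod_cast Finset.card_pos.2 hC
  have hc1 : (1 : ℝ) ≤ C.card := by exact_mod_cast Finset.card_pos.2 hC
  refine (sum_lossy_le C T V1 th).trans ?_
  have hA1 : ∑ A ∈ C, ((((A \ T) ∩ V1).card.choose 2 : ℕ) : ℝ) ≤
      C.card * (h1 ^ 2 / 2 + e1 * q ^ 2 / 2) := by
    have h2 : ∀ A ∈ C, ((((A \ T) ∩ V1).card.choose 2 : ℕ) : ℝ) ≤
        h1 ^ 2 / 2 + (if h1 ≤ ((A ∩ V1).card : ℝ) then (q : ℝ) ^ 2 / 2 else 0) := by
      intro A hA
      have h3 : (((A \ T) ∩ V1).card : ℝ) ≤ ((A ∩ V1).card : ℝ) := by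
        exact_mod_cast Finset.card_le_card
          (Finset.inter_subset_inter_right Finset.sdiff_subset)
      have h4 : (0 : ℝ) ≤ (((A \ T) ∩ V1).card : ℝ) := Nat.cast_nonneg _
      rw [Nat.cast_choose_two]
      split_ifs with h5
      · have h6 : ((A ∩ V1).card : ℝ) ≤ q := by
          exact_mod_cast (Finset.card_le_card Finset.inter_subset_left).trans (hq A hA)
        nlinarith [sq_nonneg h1]
      · push Not at h5
        nlinarith
    refine (Finset.sum_le_sum h2).trans ?_
    rw [Finset.sum_add_distrib, Finset.sum_const, nsmul_eq_mul, ← Finset.sum_filter,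
      Finset.sum_const, nsmul_eq_mul, mul_add]
    refine add_le_add_right ?_ _
    calc ((C.filter (fun A => h1 ≤ ((A ∩ V1).card : ℝ))).card : ℝ) * ((q : ℝ) ^ 2 / 2)
        ≤ (e1 * C.card) * ((q : ℝ) ^ 2 / 2) := mul_le_mul_of_nonneg_right hP (by positivity)
      _ = _ := by ring
  have hA2 : ∑ x ∈ Finset.univ.filter (fun x => x ∉ T ∧ x ∉ V1),
      ∑ A ∈ pinS C {x}, ((A ∩ part C T th x).card : ℝ) ≤
      C.card * ((k + q * e2) * q + N * (q * τ)) := by
    have h2 : ∀ x ∈ Finset.univ.filter (fun x => x ∉ T ∧ x ∉ V1),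
        ∑ A ∈ pinS C {x}, ((A ∩ part C T th x).card : ℝ) ≤
        (k + q * e2) * cntS C {x} + q * τ * C.card := by
      intro x hxm
      rw [Finset.mem_filter] at hxm
      have hx0 : (0 : ℝ) ≤ cntS C {x} := Nat.cast_nonneg _
      by_cases h3 : τ * C.card ≤ cntS C {x}
      · have h4 := few_partners (q := q) (k := k) (θ := θ) hq hB hθ hs hxm.2.1
        have h5 : ∀ A, A ∩ part C T th x ⊆ A ∩ Finset.univ.filter
            (fun y => y ∉ T ∧ y ≠ x ∧ θ * cntS C {x} ≤ cntS C {x, y}) := by
          intro A y hy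
          rw [Finset.mem_inter] at hy ⊢
          refine ⟨hy.1, ?_⟩
          have h6 := hy.2
          unfold part at h6
          rw [Finset.mem_filter] at h6 ⊢
          refine ⟨Finset.mem_univ _, h6.2.1, h6.2.2.1, ?_⟩
          have h7 := hx x hxm.2.2
          calc θ * cntS C {x} ≤ θ * (thx * C.card) := mul_le_mul_of_nonneg_left h7 hθ.le
            _ = (θ * thx) * C.card := by ring
            _ ≤ th * C.card := mul_le_mul_of_nonneg_right hθx hc.le
            _ ≤ cntS C {x, y} := h6.2.2.2.le
        have h6 : (((pinS C {x}).filter (fun A => k ≤ (A ∩ part C T th x).card)).card : ℝ) ≤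
            e2 * cntS C {x} := by
          have h7 : ((pinS C {x}).filter (fun A => k ≤ (A ∩ part C T th x).card)).card ≤
              ((pinS C {x}).filter (fun A => k ≤ (A ∩ Finset.univ.filter
                (fun y => y ∉ T ∧ y ≠ x ∧ θ * cntS C {x} ≤ cntS C {x, y})).card)).card := by
            refine Finset.card_le_card fun A hA => ?_
            rw [Finset.mem_filter] at hA ⊢
            exact ⟨hA.1, hA.2.trans (Finset.card_le_card (h5 A))⟩
          calc (((pinS C {x}).filter (fun A => k ≤ (A ∩ part C T th x).card)).card : ℝ)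
              ≤ (q / θ) ^ k * (C.card / B ^ (k + 1)) := le_trans (by exact_mod_cast h7) h4
            _ = (q / θ) ^ k / B ^ (k + 1) * C.card := by ring
            _ ≤ (e2 * τ) * C.card := mul_le_mul_of_nonneg_right hk hc.le
            _ = e2 * (τ * C.card) := by ring
            _ ≤ e2 * cntS C {x} := mul_le_mul_of_nonneg_left h3 he2
        have h7 : ∀ A ∈ pinS C {x}, ((A ∩ part C T th x).card : ℝ) ≤
            k + (if k ≤ (A ∩ part C T th x).card then (q : ℝ) else 0) := by
          intro A hA
          split_ifs with h8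
          · have h9 : ((A ∩ part C T th x).card : ℝ) ≤ q := by
              exact_mod_cast (Finset.card_le_card Finset.inter_subset_left).trans
                (hq A (pinS_subset C _ hA))
            have h10 : (0 : ℝ) ≤ k := Nat.cast_nonneg k
            linarith
          · rw [add_zero]
            push Not at h8
            exact_mod_cast h8.le
        refine (Finset.sum_le_sum h7).trans ?_
        rw [Finset.sum_add_distrib, Finset.sum_const, nsmul_eq_mul, ← Finset.sum_filter,
          Finset.sum_const, nsmul_eq_mul]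
        have h8 : ((pinS C {x}).card : ℝ) = cntS C {x} := rfl
        have h9 := mul_le_mul_of_nonneg_right h6 (Nat.cast_nonneg (α := ℝ) q)
        have h10 : (0 : ℝ) ≤ q * τ * C.card := by positivity
        rw [h8]
        nlinarith
      · push Not at h3
        have h7 : ∀ A ∈ pinS C {x}, ((A ∩ part C T th x).card : ℝ) ≤ q := by
          intro A hA
          exact_mod_cast (Finset.card_le_card Finset.inter_subset_left).trans
            (hq A (pinS_subset C _ hA))
        refine (Finset.sum_le_sum h7).trans ?_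
        rw [Finset.sum_const, nsmul_eq_mul]
        have h8 : ((pinS C {x}).card : ℝ) = cntS C {x} := rfl
        rw [h8]
        have h9 : (cntS C {x} : ℝ) * q ≤ (τ * C.card) * q :=
          mul_le_mul_of_nonneg_right h3.le (Nat.cast_nonneg q)
        have h10 : (0 : ℝ) ≤ (k + q * e2) * cntS C {x} := by positivity
        nlinarith
    refine (Finset.sum_le_sum h2).trans ?_
    rw [Finset.sum_add_distrib, ← Finset.mul_sum, Finset.sum_const, nsmul_eq_mul]
    have h3 : ∑ x ∈ Finset.univ.filter (fun x => x ∉ T ∧ x ∉ V1), (cntS C {x} : ℝ) ≤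
        q * C.card :=
      (Finset.sum_le_sum_of_subset_of_nonneg (Finset.filter_subset _ _)
        fun _ _ _ => Nat.cast_nonneg _).trans (sum_cnt_le hq)
    have h4 := mul_le_mul_of_nonneg_left h3 (by positivity : (0 : ℝ) ≤ k + q * e2)
    have h5 : ((Finset.univ.filter (fun x : Fin N => x ∉ T ∧ x ∉ V1)).card : ℝ) ≤ N := by
      have h8 := Finset.card_le_univ (Finset.univ.filter (fun x : Fin N => x ∉ T ∧ x ∉ V1))
      rw [Fintype.card_fin] at h8
      exact_mod_cast h8
    have h6 := mul_le_mul_of_nonneg_right h5 (by positivity : (0 : ℝ) ≤ q * τ * C.card)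
    linarith
  calc _ ≤ C.card * (h1 ^ 2 / 2 + e1 * q ^ 2 / 2) +
        C.card * ((k + q * e2) * q + N * (q * τ)) := add_le_add hA1 hA2
    _ = _ := by ring

end C0q2
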