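import Pool.Agent.W_c0q2_h20.Iface
import Pool.Agent.W_c0q2_h41.LosT

/-!
# MP_c0ce05_co, Q2: the small core `T*` (section 4 of proofs row 518), statement `S_TS`
-/

set_option autoImplicit false

namespace C0q2

open scoped Classical
open C0lo C0st

variable {N q D : ℕ} {L l p : ℝ} {P : GP N}

theorem pl_L0 (h : Big N q L l) : (10 : ℝ) ^ 57 ≤ L := by
  have h1 := h.l_big
  have h2 := h.l_sm
  nlinarith

theorem pl_Npos (h : Big N q L l) : (0 : ℝ) < N := by
  have h1 := (pl_L0 h)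
  have h2 := h.L_def
  rcases Nat.eq_zero_or_pos N with h3 | h3
  · rw [h3, Nat.cast_zero, Real.logb_zero] at h2
    norm_num at h1
    linarith
  · exact_mod_cast h3

theorem pl_N_eq (h : Big N q L l) : (N : ℝ) = (2 : ℝ) ^ L := by
  rw [h.L_def, Real.rpow_logb (by norm_num) (by norm_num) (pl_Npos h)]

theorem pl_L_eq (h : Big N q L l) : L = (2 : ℝ) ^ l := by
  have h1 := (pl_L0 h)
  rw [h.l_def, Real.rpow_logb (by norm_num) (by norm_num) (by linarith [h1, (by norm_num :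
    (0 : ℝ) < 10 ^ 57)])]

theorem pl_q2 (h : Big N q L l) : (q : ℝ) ≤ 2 * L := by
  have h1 := h.q_le
  have h2 := h.l_big
  norm_num at h1 h2
  linarith

theorem pl_q1 (h : Big N q L l) : L ≤ (q : ℝ) := by
  have h1 := h.q_ge
  have h2 := h.l_sm
  have h3 := h.l_big
  norm_num at h1 h2 h3
  linarith

theorem TS_pow (x : ℝ) (k : ℕ) : ((2 : ℝ) ^ x) ^ k = (2 : ℝ) ^ (x * (k : ℝ)) := by
  rw [← Real.rpow_natCast, ← Real.rpow_mul (by norm_num)]

theorem TS_num1 (h : Big N q L l) :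
    ((q : ℝ) / (2 : ℝ) ^ (-(0.35 / 200000) * L)) ^ 320000 /
      ((2 : ℝ) ^ (1 / 200000 * L)) ^ (320000 + 1) ≤ 1 / L * (1 / (N * L ^ 2)) := by
  have hL := (pl_L0 h)
  have hl := h.l_big
  have hs := h.l_sm
  have hN := (pl_N_eq h)
  have hLe := (pl_L_eq h)
  have hL0 : (0 : ℝ) < L := lt_of_lt_of_le (by norm_num) hL
  have hq : (q : ℝ) ≤ (2 : ℝ) ^ (l + 1) := by
    rw [Real.rpow_add (by norm_num), Real.rpow_one, ← hLe]
    linarith [(pl_q2 h)]
  have h1 : (q : ℝ) / (2 : ℝ) ^ (-(0.35 / 200000) * L) ≤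
      (2 : ℝ) ^ (l + 1 + 0.35 / 200000 * L) := by
    rw [div_le_iff₀ (by positivity), ← Real.rpow_add (by norm_num)]
    refine hq.trans (le_of_eq ?_)
    congr 1
    ring
  have h2 : ((q : ℝ) / (2 : ℝ) ^ (-(0.35 / 200000) * L)) ^ 320000 ≤
      (2 : ℝ) ^ ((l + 1 + 0.35 / 200000 * L) * 320000) := by
    have h3 := pow_le_pow_left₀ (by positivity) h1 320000
    rw [TS_pow (l + 1 + 0.35 / 200000 * L), Nat.cast_ofNat] at h3
    exact h3
  have h3 : ((2 : ℝ) ^ (1 / 200000 * L)) ^ (320000 + 1) =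
      (2 : ℝ) ^ (1 / 200000 * L * 320001) := by
    rw [TS_pow]
    norm_num
  have h4 : 1 / L * (1 / (N * L ^ 2)) = (2 : ℝ) ^ (-(3 * l + L)) := by
    rw [Real.rpow_neg (by norm_num), Real.rpow_add (by norm_num), ← hN]
    have h5 : (2 : ℝ) ^ (3 * l) = L ^ 3 := by
      rw [mul_comm, Real.rpow_mul (by norm_num), ← hLe]
      norm_cast
    rw [h5]
    have hNp := (pl_Npos h)
    field_simp
  rw [h3, h4, div_le_iff₀ (by positivity), ← Real.rpow_add (by norm_num)]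
  refine h2.trans ?_
  refine Real.rpow_le_rpow_of_exponent_le (by norm_num) ?_
  nlinarith

theorem pl_mMC_le (h : Big N q L l) : (mMC N : ℝ) ≤ (2 : ℝ) ^ ((1 + 1 / 800000) * L + 1) := by
  have hL := (pl_L0 h)
  have hL0 : (0 : ℝ) < L := lt_of_lt_of_le (by norm_num) hL
  have h1 : (N : ℝ) ^ (1 + 1 / 800000 : ℝ) = (2 : ℝ) ^ ((1 + 1 / 800000) * L) := by
    rw [(pl_N_eq h), ← Real.rpow_mul (by norm_num)]
    congr 1
    ring
  unfold mMC
  rw [h1]
  have h2 : (1 : ℝ) ≤ (2 : ℝ) ^ ((1 + 1 / 800000) * L) :=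
    Real.one_le_rpow (by norm_num) (by positivity)
  have h3 := (Nat.ceil_lt_add_one (by positivity : (0 : ℝ) ≤
    (2 : ℝ) ^ ((1 + 1 / 800000) * L))).le
  rw [Real.rpow_add (by norm_num), Real.rpow_one]
  linarith

theorem pl_mMC_pos (h : Big N q L l) : (0 : ℝ) < mMC N := by
  have h1 := (pl_Npos h)
  unfold mMC
  exact_mod_cast Nat.ceil_pos.2 (Real.rpow_pos_of_pos h1 _)

theorem TS_num2 (h : Big N q L l) :
    (2 : ℝ) ^ (-(0.35 / 200000) * L) * (2 : ℝ) ^ (-(1 - 1 / 2400000) * L) ≤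
      1 / (L ^ 12 * mMC N) := by
  have hL := (pl_L0 h)
  have hl := h.l_big
  have hs := h.l_sm
  have hLe := (pl_L_eq h)
  have hL0 : (0 : ℝ) < L := lt_of_lt_of_le (by norm_num) hL
  have hm := pl_mMC_le h
  have hm0 := pl_mMC_pos h
  have h1 : L ^ 12 = (2 : ℝ) ^ (l * 12) := by
    rw [Real.rpow_mul (by norm_num), ← hLe]
    norm_cast
  have h2 : L ^ 12 * mMC N ≤ (2 : ℝ) ^ (l * 12 + ((1 + 1 / 800000) * L + 1)) := by
    rw [Real.rpow_add (by norm_num), ← h1]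
    exact mul_le_mul_of_nonneg_left hm (by positivity)
  rw [← Real.rpow_add (by norm_num)]
  refine le_trans ?_ (one_div_le_one_div_of_le (by positivity) h2)
  rw [one_div ((2 : ℝ) ^ _), ← Real.rpow_neg (by norm_num)]
  refine Real.rpow_le_rpow_of_exponent_le (by norm_num) ?_
  nlinarith

theorem S_TS_holds : S_TS := by
  intro N q L l P D p hc hF1 hPL C hC hCbig R hRc hR
  have hb := hc.big
  have hL := (pl_L0 hb)
  have hL0 : (0 : ℝ) < L := lt_of_lt_of_le (by norm_num) hL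
  have hp1 := hc.p1
  have hp0 : (0 : ℝ) < p := lt_of_lt_of_le (by norm_num) hp1
  have hN0 := (pl_Npos hb)
  have hCne : C.Nonempty := by
    rw [← Finset.card_pos]
    have h1 : (0 : ℝ) < C.card := lt_of_lt_of_le (by positivity) hCbig
    exact_mod_cast h1
  have hB : (0 : ℝ) < (2 : ℝ) ^ (1 / 200000 * L) := by positivity
  have hRt : R.card ≤ ⌊10 * p⌋₊ := by
    refine Nat.le_floor ?_
    linarith
  obtain ⟨T, hRT, hTc, hTne, hTbig, hspread⟩ := exists_core hR hCne hB hRt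
  have hTc' : (T.card : ℝ) ≤ 10 * p := by
    have h1 : ((⌊10 * p⌋₊ : ℕ) : ℝ) ≤ 10 * p := Nat.floor_le (by positivity)
    have h2 : (T.card : ℝ) ≤ ((⌊10 * p⌋₊ : ℕ) : ℝ) := by exact_mod_cast hTc
    linarith
  have hTbig2 : (2 : ℝ) ^ ((0.002655 * p + 105) * L) ≤ (cntS C T : ℝ) := by
    have h1 : (1 : ℝ) ≤ ((2 : ℝ) ^ (1 / 200000 * L)) ^ R.card :=
      one_le_pow₀ (Real.one_le_rpow (by norm_num) (by positivity))
    have h2 : ((2 : ℝ) ^ (1 / 200000 * L)) ^ T.card ≤ (2 : ℝ) ^ (1 / 20000 * p * L) := by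
      rw [← Real.rpow_natCast, ← Real.rpow_mul (by norm_num)]
      refine Real.rpow_le_rpow_of_exponent_le (by norm_num) ?_
      calc 1 / 200000 * L * (T.card : ℝ) ≤ 1 / 200000 * L * (10 * p) :=
            mul_le_mul_of_nonneg_left hTc' (by positivity)
        _ = 1 / 20000 * p * L := by ring
    have h3 : (C.card : ℝ) ≤ cntS C T * (2 : ℝ) ^ (1 / 20000 * p * L) := by
      calc (C.card : ℝ) = C.card * 1 := (mul_one _).symm
        _ ≤ C.card * ((2 : ℝ) ^ (1 / 200000 * L)) ^ R.card :=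
            mul_le_mul_of_nonneg_left h1 (Nat.cast_nonneg _)
        _ ≤ _ := hTbig
        _ ≤ _ := mul_le_mul_of_nonneg_left h2 (Nat.cast_nonneg _)
    have h4 : (2 : ℝ) ^ ((0.002655 * p + 105) * L) * (2 : ℝ) ^ (1 / 20000 * p * L) ≤
        cntS C T * (2 : ℝ) ^ (1 / 20000 * p * L) := by
      refine le_trans ?_ (hCbig.trans h3)
      rw [← Real.rpow_add (by norm_num)]
      refine le_of_eq ?_
      congr 1
      ring
    exact le_of_mul_le_mul_right h4 (by positivity)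
  have hT13 : (T.card : ℝ) ≤ 1.3 * p := by
    by_contra h
    push Not at h
    have h1 := hF1 T h
    have h2 : (cntS C T : ℝ) ≤ cntS (Fam P q D) T := by exact_mod_cast cntS_mono hC T
    have h3 : (2 : ℝ) ^ ((0.00255 * p + 101) * L) ≤ (2 : ℝ) ^ ((0.002655 * p + 105) * L) :=
      Real.rpow_le_rpow_of_exponent_le (by norm_num) (by nlinarith)
    linarith
  refine ⟨T, hRT, hT13, hTne, ?_⟩
  have hsub : pinS C T ⊆ Fam P q D := (pinS_subset C T).trans hC
  have hPLT := hPL (pinS C T) hsub (by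
    refine le_trans ?_ hTbig2
    refine Real.rpow_le_rpow_of_exponent_le (by norm_num) ?_
    nlinarith)
  have hq : ∀ A ∈ pinS C T, A.card ≤ q := fun A hA => (mem_Fam.1 (hsub hA)).1.le
  have hLpos3 : (0 : ℝ) < L ^ 3 := by positivity
  have hs' : ∀ Y : Finset (Fin N), Disjoint Y T → Y.card ≤ 320000 + 1 →
      (cntS (pinS C T) Y : ℝ) * ((2 : ℝ) ^ (1 / 200000 * L)) ^ Y.card ≤ (pinS C T).card := by
    intro Y hY hYc
    refine hspread Y hY (Nat.le_floor ?_)
    push_cast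
    have h1 : (Y.card : ℝ) ≤ 320000 + 1 := by exact_mod_cast hYc
    norm_num at hp1
    linarith
  have hP' : (((pinS C T).filter (fun A => 24000000 * p ≤
      ((A ∩ popV (pinS C T) L).card : ℝ))).card : ℝ) ≤ 1 / L ^ 3 * (pinS C T).card := by
    rw [div_mul_eq_mul_div, one_mul, le_div_iff₀ hLpos3, mul_comm]
    exact hPLT
  have hx' : ∀ x, x ∉ popV (pinS C T) L →
      (cntS (pinS C T) {x} : ℝ) ≤ (2 : ℝ) ^ (-(1 - 1 / 2400000) * L) * (pinS C T).card := by
    intro x hx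
    unfold popV at hx
    rw [Finset.mem_filter] at hx
    push Not at hx
    exact (hx (Finset.mem_univ _)).le
  have hmain := lossy_T (V1 := popV (pinS C T) L) (k := 320000) (e1 := 1 / L ^ 3)
    (e2 := 1 / L) (τ := 1 / (N * L ^ 2)) (h1 := 24000000 * p)
    (th := 1 / (L ^ 12 * mMC N)) (θ := (2 : ℝ) ^ (-(0.35 / 200000) * L))
    (thx := (2 : ℝ) ^ (-(1 - 1 / 2400000) * L)) hTne hq hB (by positivity) (by positivity)
    (by positivity) (by positivity) hs' hP' hx' (TS_num2 hb) (TS_num1 hb)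
  refine hmain.trans (mul_le_mul_of_nonneg_left ?_ (Nat.cast_nonneg _))
  have hq2 := (pl_q2 hb)
  have hq0 : (0 : ℝ) ≤ q := Nat.cast_nonneg q
  have h1 : 1 / L ^ 3 * (q : ℝ) ^ 2 / 2 ≤ 1 := by
    rw [div_mul_eq_mul_div, one_mul, div_div, div_le_one (by positivity)]
    have h2 : (q : ℝ) ^ 2 ≤ (2 * L) ^ 2 := pow_le_pow_left₀ hq0 hq2 2
    have h3 : (2 : ℝ) ≤ L := le_trans (by norm_num) hL
    nlinarith [sq_nonneg L]
  have h2 : (((320000 : ℕ) : ℝ) + q * (1 / L)) * q ≤ 320002 * (2 * L) := by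
    have h3 : (q : ℝ) * (1 / L) ≤ 2 := by
      rw [mul_one_div, div_le_iff₀ hL0]
      exact hq2
    have h4 : ((320000 : ℕ) : ℝ) = 320000 := by norm_num
    rw [h4]
    exact mul_le_mul (by linarith) hq2 hq0 (by norm_num)
  have h3 : (N : ℝ) * (q * (1 / (N * L ^ 2))) ≤ 1 := by
    have h4 : (N : ℝ) * (q * (1 / (N * L ^ 2))) = q / L ^ 2 := by
      field_simp
    rw [h4, div_le_one (by positivity)]
    have h3 : (2 : ℝ) ≤ L := le_trans (by norm_num) hL
    nlinarith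
  have h4 : (10 : ℝ) ≤ L := le_trans (by norm_num) hL
  linarith

end C0q2
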