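import Pool.Agent.W_c0q2_h41.Lossy

/-!
# MP_c0ce05_co, Q2: the law of Lemma P (section 3 of proofs row 518)

Choose `n ≤ q`, `n` elements of `V'` and `q - n` further elements: the set `A` has probability at
least `1 / wP q V' A`.
-/

set_option autoImplicit false

namespace C0q2

open scoped Classical
open C0lo C0st

variable {N : ℕ}

/-- the inverse of the prior of Lemma P -/
noncomputable def wP (q : ℕ) (V' A : Finset (Fin N)) : ℝ :=
  (V'.card.choose (A ∩ V').card : ℝ) * (N.choose (q - (A ∩ V').card) : ℝ) * (q + 1)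

theorem wP_pos {q : ℕ} {V' A : Finset (Fin N)} (hA : A.card = q) : 0 < wP q V' A := by
  unfold wP
  have h1 : 0 < V'.card.choose (A ∩ V').card :=
    Nat.choose_pos (Finset.card_le_card Finset.inter_subset_right)
  have h2 : 0 < N.choose (q - (A ∩ V').card) := by
    refine Nat.choose_pos ?_
    have h3 := Finset.card_le_univ A
    rw [Fintype.card_fin, hA] at h3
    omega
  positivity

theorem card_slice_le (q n : ℕ) (V' : Finset (Fin N)) :
    ((Finset.univ : Finset (Finset (Fin N))).filter
      (fun A => A.card = q ∧ (A ∩ V').card = n)).card ≤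
      V'.card.choose n * N.choose (q - n) := by
  have h1 : (Finset.powersetCard n V' ×ˢ
      Finset.powersetCard (q - n) (Finset.univ : Finset (Fin N))).card =
      V'.card.choose n * N.choose (q - n) := by
    rw [Finset.card_product, Finset.card_powersetCard, Finset.card_powersetCard,
      Finset.card_univ, Fintype.card_fin]
  rw [← h1]
  refine Finset.card_le_card_of_injOn (fun A => (A ∩ V', A \ V')) ?_ ?_
  · intro A hA
    rw [Finset.mem_coe, Finset.mem_filter] at hA
    rw [Finset.mem_coe, Finset.mem_product, Finset.mem_powersetCard, Finset.mem_powersetCard]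
    have h2 := Finset.card_inter_add_card_sdiff A V'
    refine ⟨⟨Finset.inter_subset_right, hA.2.2⟩, Finset.subset_univ _, ?_⟩
    have h3 := hA.2.1
    have h4 := hA.2.2
    simp only
    omega
  · intro A _ B _ h
    simp only [Prod.mk.injEq] at h
    rw [← Finset.sdiff_union_inter A V', ← Finset.sdiff_union_inter B V', h.1, h.2]

/-- Kraft's inequality for the law of Lemma P. -/
theorem wP_kraft (q : ℕ) (V' : Finset (Fin N)) :
    ∑ A : Finset (Fin N), (if A.card = q then (wP q V' A)⁻¹ else 0) ≤ 1 := by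
  rw [← Finset.sum_filter]
  have hmap : ∀ A ∈ (Finset.univ : Finset (Finset (Fin N))).filter (fun A => A.card = q),
      (A ∩ V').card ∈ Finset.range (q + 1) := by
    intro A hA
    rw [Finset.mem_filter] at hA
    rw [Finset.mem_range]
    have h1 : (A ∩ V').card ≤ A.card := Finset.card_le_card Finset.inter_subset_left
    omega
  rw [← Finset.sum_fiberwise_of_maps_to hmap]
  have h1 : ∀ n ∈ Finset.range (q + 1),
      ∑ A ∈ ((Finset.univ : Finset (Finset (Fin N))).filter (fun A => A.card = q)).filter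
        (fun A => (A ∩ V').card = n), (wP q V' A)⁻¹ ≤ ((q : ℝ) + 1)⁻¹ := by
    intro n _
    have h2 : ∀ A ∈ ((Finset.univ : Finset (Finset (Fin N))).filter (fun A => A.card = q)).filter
        (fun A => (A ∩ V').card = n), (wP q V' A)⁻¹ =
        (((V'.card.choose n : ℕ) : ℝ) * (N.choose (q - n) : ℝ) * (q + 1))⁻¹ := by
      intro A hA
      rw [Finset.mem_filter] at hA
      unfold wP
      rw [hA.2]
    rw [Finset.sum_congr rfl h2, Finset.sum_const, nsmul_eq_mul, Finset.filter_filter]
    have h3 := card_slice_le q n V'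
    have h4 : (((Finset.univ : Finset (Finset (Fin N))).filter
        (fun A => A.card = q ∧ (A ∩ V').card = n)).card : ℝ) ≤
        ((V'.card.choose n : ℕ) : ℝ) * (N.choose (q - n) : ℝ) := by exact_mod_cast h3
    have h5 : (0 : ℝ) ≤ ((V'.card.choose n : ℕ) : ℝ) * (N.choose (q - n) : ℝ) := by positivity
    have h6 : (0 : ℝ) < (q : ℝ) + 1 := by positivity
    rcases h5.eq_or_lt with h7 | h7
    · rw [← h7] at h4
      have h8 : (((Finset.univ : Finset (Finset (Fin N))).filter
        (fun A => A.card = q ∧ (A ∩ V').card = n)).card : ℝ) = 0 :=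
        le_antisymm h4 (Nat.cast_nonneg _)
      rw [h8, zero_mul]
      positivity
    · rw [mul_inv, ← mul_assoc]
      have h9 : (((Finset.univ : Finset (Finset (Fin N))).filter
        (fun A => A.card = q ∧ (A ∩ V').card = n)).card : ℝ) *
          (((V'.card.choose n : ℕ) : ℝ) * (N.choose (q - n) : ℝ))⁻¹ ≤ 1 := by
        rw [← div_eq_mul_inv, div_le_one h7]
        exact h4
      calc _ ≤ 1 * ((q : ℝ) + 1)⁻¹ := mul_le_mul_of_nonneg_right h9 (by positivity)
        _ = _ := one_mul _
  refine (Finset.sum_le_sum h1).trans ?_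
  rw [Finset.sum_const, Finset.card_range, nsmul_eq_mul]
  have h6 : (0 : ℝ) < (q : ℝ) + 1 := by positivity
  push_cast
  rw [mul_inv_cancel₀ h6.ne']

theorem PL_sq_le {q : ℕ} (hq : 8 ≤ q) : (q + 1) ^ 2 ≤ 2 ^ q := by
  induction q, hq using Nat.le_induction with
  | base => norm_num
  | succ k hk ih =>
    rw [pow_succ 2 k]
    nlinarith

/-- The bound `log₂ wP ≤ q (L - log₂ q) + 3 q - n (L - Λ - log₂ q)` if `|V'| ≤ q 2 ^ Λ`,
`n = |A ∩ V'|`. -/
theorem logb_wP_le {q : ℕ} {V' A : Finset (Fin N)} (hN : 1 ≤ N) (hq : 8 ≤ q) (hA : A.card = q)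
    {Lam : ℝ} (hV : (V'.card : ℝ) ≤ q * 2 ^ Lam) :
    Real.logb 2 (wP q V' A) ≤ q * (Real.logb 2 N - Real.logb 2 q) + 3 * q -
      (A ∩ V').card * (Real.logb 2 N - Lam - Real.logb 2 q) := by
  obtain ⟨n, hn⟩ : ∃ n, n = (A ∩ V').card := ⟨_, rfl⟩
  have hnq : n ≤ q := by
    rw [hn, ← hA]
    exact Finset.card_le_card Finset.inter_subset_left
  have hq0 : (0 : ℝ) < q := by
    have : (8 : ℝ) ≤ q := by exact_mod_cast hq
    linarith
  have hN0 : (0 : ℝ) < N := by
    have : (1 : ℝ) ≤ N := by exact_mod_cast hN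
    linarith
  have hp := wP_pos (V' := V') hA
  have hV0 : (0 : ℝ) < q * 2 ^ Lam := by positivity
  -- the bound of `wP`
  have h1 : wP q V' A ≤ (q * 2 ^ Lam) ^ n * (N : ℝ) ^ (q - n) * (q + 1) *
      (2 ^ q * Real.exp q / (q : ℝ) ^ q) := by
    have h2 : ((V'.card.choose n : ℕ) : ℝ) ≤ (q * 2 ^ Lam) ^ n / (n.factorial : ℝ) := by
      refine (Nat.choose_le_pow_div n V'.card).trans ?_
      exact div_le_div_of_nonneg_right (pow_le_pow_left₀ (Nat.cast_nonneg _) hV n)
        (Nat.cast_nonneg _)
    have h3 : ((N.choose (q - n) : ℕ) : ℝ) ≤ (N : ℝ) ^ (q - n) / ((q - n).factorial : ℝ) :=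
      Nat.choose_le_pow_div (q - n) N
    have h4 : ((q.factorial : ℕ) : ℝ) ≤ 2 ^ q * ((n.factorial : ℝ) * ((q - n).factorial : ℝ)) := by
      have h5 := Nat.choose_mul_factorial_mul_factorial hnq
      have h6 : q.choose n ≤ 2 ^ q := Nat.choose_le_two_pow q n
      have h7 : q.factorial ≤ 2 ^ q * (n.factorial * (q - n).factorial) := by
        rw [← h5, mul_assoc]
        exact Nat.mul_le_mul_right _ h6
      exact_mod_cast h7
    have h5 : (q : ℝ) ^ q / (q.factorial : ℝ) ≤ Real.exp q :=
      Real.pow_div_factorial_le_exp (q : ℝ) hq0.le q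
    have hf : (0 : ℝ) < q.factorial := by exact_mod_cast Nat.factorial_pos q
    have hfn : (0 : ℝ) < n.factorial := by exact_mod_cast Nat.factorial_pos n
    have hfq : (0 : ℝ) < (q - n).factorial := by exact_mod_cast Nat.factorial_pos (q - n)
    have h6 : ((n.factorial : ℝ) * ((q - n).factorial : ℝ))⁻¹ ≤
        2 ^ q * Real.exp q / (q : ℝ) ^ q := by
      rw [inv_le_iff_one_le_mul₀ (by positivity)]
      rw [div_mul_eq_mul_div, le_div_iff₀ (by positivity), one_mul]
      rw [div_le_iff₀ hf] at h5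
      calc (q : ℝ) ^ q ≤ Real.exp q * q.factorial := h5
        _ ≤ Real.exp q * (2 ^ q * ((n.factorial : ℝ) * ((q - n).factorial : ℝ))) :=
            mul_le_mul_of_nonneg_left h4 (Real.exp_pos _).le
        _ = _ := by ring
    unfold wP
    rw [← hn]
    calc ((V'.card.choose n : ℕ) : ℝ) * ((N.choose (q - n) : ℕ) : ℝ) * (q + 1)
        ≤ ((q * 2 ^ Lam) ^ n / (n.factorial : ℝ)) *
          ((N : ℝ) ^ (q - n) / ((q - n).factorial : ℝ)) * (q + 1) := by
          refine mul_le_mul_of_nonneg_right ?_ (by positivity)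
          exact mul_le_mul h2 h3 (Nat.cast_nonneg _) (by positivity)
      _ = (q * 2 ^ Lam) ^ n * (N : ℝ) ^ (q - n) * (q + 1) *
          ((n.factorial : ℝ) * ((q - n).factorial : ℝ))⁻¹ := by
          field_simp
      _ ≤ _ := mul_le_mul_of_nonneg_left h6 (by positivity)
  have h2 := Real.logb_le_logb_of_le (by norm_num : (1 : ℝ) < 2) hp h1
  refine h2.trans ?_
  have hq' : ((q : ℝ) + 1) ≠ 0 := by positivity
  have hqq : ((q : ℝ) ^ q) ≠ 0 := by positivity
  rw [Real.logb_mul (by positivity) (by positivity), Real.logb_mul (by positivity) hq',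
    Real.logb_mul (by positivity) (by positivity), Real.logb_pow, Real.logb_pow,
    Real.logb_mul hq0.ne' (by positivity), Real.logb_div (by positivity) hqq,
    Real.logb_mul (by positivity) (Real.exp_pos _).ne', Real.logb_pow, Real.logb_pow,
    Real.logb_self_eq_one (by norm_num), Real.logb_rpow (by norm_num) (by norm_num), ← hn]
  have h3 : Real.logb 2 (Real.exp q) ≤ 3 / 2 * q := by
    rw [Real.logb, Real.log_exp]
    have h4 := Real.log_two_gt_d9
    rw [div_le_iff₀ (by linarith)]
    nlinarith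
  have h4 : Real.logb 2 ((q : ℝ) + 1) ≤ 1 / 2 * q := by
    have h6 : ((q : ℝ) + 1) ^ 2 ≤ 2 ^ q := by exact_mod_cast PL_sq_le hq
    have h7 := Real.logb_le_logb_of_le (by norm_num : (1 : ℝ) < 2) (by positivity) h6
    rw [Real.logb_pow, Real.logb_pow, Real.logb_self_eq_one (by norm_num)] at h7
    push_cast at h7
    linarith
  have h5 : ((q - n : ℕ) : ℝ) = q - n := by
    rw [Nat.cast_sub hnq]
  rw [h5]
  nlinarith

end C0q2
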